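import Mathlib
import Pool.Agent.Run7.h401.SD.Pair

/-!
The curve of several polynomials; decay of its characteristic function near a set of directions.
-/

set_option autoImplicit false

open MeasureTheory Filter Topology Polynomial
open scoped ComplexConjugate ContDiff

namespace Run7.h401.SM
open Run7.h401.SD

/-- **decay of the characteristic function of a curve, for a set of directions** -/
theorem osc_decay_dir {V : Type} [NormedAddCommGroup V] [InnerProductSpace ℝ V] {X X1 X2 : ℝ → V}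
    (h1 : ∀ x, HasDerivAt X (X1 x) x) (h2 : ∀ x, HasDerivAt X1 (X2 x) x)
    (hc : Continuous X2) (hp0 : X 1 = X 0) (hp1 : X1 1 = X1 0) {A b : ℝ} (hA : 0 ≤ A) (hb1 : b ≤ 1) {Γ : Set V}
    (hsub : ∀ u ∈ Γ, ∀ τ : ℝ, 0 < τ → τ ≤ 1 →
      volume {x ∈ Set.Icc (0:ℝ) 1 | |(inner ℝ (X1 x) u : ℝ)| ≤ τ} ≤ ENNReal.ofReal (A * τ ^ b)) :
    ∃ C : ℝ, 0 < C ∧ ∀ ξ : V, 1 ≤ ‖ξ‖ → ‖ξ‖⁻¹ • ξ ∈ Γ →
      ‖∫ x in Set.Icc (0:ℝ) 1, Complex.exp ((inner ℝ (X x) ξ : ℝ) * Complex.I)‖ ≤ C * ‖ξ‖ ^ (-(b / 8)) := by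
  have hX1c : Continuous X1 := continuous_iff_continuousAt.2 fun x => (h2 x).continuousAt
  obtain ⟨M, hM⟩ := (isCompact_Icc (a := (0:ℝ)) (b := 1)).exists_bound_of_continuousOn hc.continuousOn
  have hM0 : 0 ≤ M := (norm_nonneg _).trans (hM 0 (by simp))
  refine ⟨A + 1 + M, by linarith, fun ξ hξ hξΓ => ?_⟩
  set l : ℝ := ‖ξ‖ with hl
  have hl0 : 0 < l := by linarith
  set u : V := l⁻¹ • ξ with hu
  have hun : ‖u‖ = 1 := by
    rw [hu, norm_smul, Real.norm_of_nonneg (by positivity), ← hl, inv_mul_cancel₀ hl0.ne']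
  have hξu : ξ = l • u := by rw [hu, smul_smul, mul_inv_cancel₀ hl0.ne', one_smul]
  -- the phase
  have hin : ∀ z : V, (inner ℝ z ξ : ℝ) = l * inner ℝ z u := by
    intro z
    conv_lhs => rw [hξu]
    rw [inner_smul_right]
  have hd : ∀ {Z Z1 : ℝ → V} (x : ℝ), HasDerivAt Z (Z1 x) x →
      HasDerivAt (fun y => (inner ℝ (Z y) u : ℝ)) (inner ℝ (Z1 x) u) x := by
    intro Z Z1 x h
    have d1 := h.inner ℝ (hasDerivAt_const x u)
    simpa using d1
  have hg2c : Continuous fun x => (inner ℝ (X2 x) u : ℝ) := hc.inner continuous_const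
  have hg1c : Continuous fun x => (inner ℝ (X1 x) u : ℝ) := hX1c.inner continuous_const
  have hb2 : ∀ x ∈ Set.Icc (0:ℝ) 1, |(inner ℝ (X2 x) u : ℝ)| ≤ M := by
    intro x hx
    refine (abs_real_inner_le_norm _ _).trans ?_
    rw [hun, mul_one]
    exact hM x hx
  set ε : ℝ := l ^ (-(1 / 4) : ℝ) with hε
  have hε0 : 0 < ε := by positivity
  have hε1 : ε ≤ 1 := Real.rpow_le_one_of_one_le_of_nonpos hξ (by norm_num)
  have key := osc_basic (g := fun x => (inner ℝ (X x) u : ℝ)) (g1 := fun x => (inner ℝ (X1 x) u : ℝ))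
    (g2 := fun x => (inner ℝ (X2 x) u : ℝ)) (fun x => hd x (h1 x)) (fun x => hd x (h2 x)) hg2c
    (by simp only [hp0]) (by simp only [hp1]) hb2 hl0 hε0
  have key2 := first_term hg1c hε0
  have key3 := hsub u hξΓ (Real.sqrt ε) (Real.sqrt_pos.2 hε0) (Real.sqrt_le_one.2 hε1)
  have key4 := ENNReal.toReal_le_of_le_ofReal (by positivity) key3
  have e1 : ∫ x in Set.Icc (0:ℝ) 1, Complex.exp ((inner ℝ (X x) ξ : ℝ) * Complex.I) =
      ∫ x in (0:ℝ)..1, Complex.exp ((l * inner ℝ (X x) u : ℝ) * Complex.I) := by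
    rw [intervalIntegral.integral_of_le zero_le_one, ← integral_Icc_eq_integral_Ioc]
    refine integral_congr_ae (Eventually.of_forall fun x => ?_)
    simp only [hin]
  rw [e1]
  have hpl : 0 < l ^ (-(b / 8)) := by positivity
  -- the three terms
  have t1 : Real.sqrt ε ^ b = l ^ (-(b / 8)) := by
    rw [hε, Real.sqrt_eq_rpow, ← Real.rpow_mul hl0.le, ← Real.rpow_mul hl0.le]
    congr 1
    ring
  have t2 : ε ≤ l ^ (-(b / 8)) := by
    rw [hε]
    exact Real.rpow_le_rpow_of_exponent_le hξ (by linarith)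
  have t3 : M / (l * ε ^ 2) ≤ M * l ^ (-(b / 8)) := by
    have h4 : l * ε ^ 2 = l ^ (1 / 2 : ℝ) := by
      rw [hε, ← Real.rpow_natCast, ← Real.rpow_mul hl0.le]
      nth_rewrite 1 [← Real.rpow_one l]
      rw [← Real.rpow_add hl0]
      norm_num
    rw [h4, div_eq_mul_inv, ← Real.rpow_neg hl0.le]
    exact mul_le_mul_of_nonneg_left (Real.rpow_le_rpow_of_exponent_le hξ (by linarith)) hM0
  rw [t1] at key4
  calc _ ≤ _ := key
    _ ≤ (A * l ^ (-(b / 8)) + l ^ (-(b / 8))) + M * l ^ (-(b / 8)) := by linarith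
    _ = (A + 1 + M) * l ^ (-(b / 8)) := by ring

/-- uniformity by compactness, for a compact set of directions -/
lemma unif_low' {V : Type} [NormedAddCommGroup V] [InnerProductSpace ℝ V] {X1 : ℝ → V}
    (hc : Continuous X1) {Γ : Set V} (hΓ : IsCompact Γ)
    (h : ∀ u ∈ Γ, ∃ x ∈ Set.Icc (0:ℝ) 1, (inner ℝ (X1 x) u : ℝ) ≠ 0) :
    ∃ μ : ℝ, 0 < μ ∧ ∀ u ∈ Γ, ∃ x ∈ Set.Icc (0:ℝ) 1, μ ≤ |(inner ℝ (X1 x) u : ℝ)| := by
  set F : V → ℝ := fun u => ∫ x in (0:ℝ)..1, (inner ℝ (X1 x) u : ℝ) ^ 2 with hF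
  have hFc : Continuous F := by
    apply intervalIntegral.continuous_parametric_intervalIntegral_of_continuous'
    unfold Function.uncurry
    fun_prop
  rcases Γ.eq_empty_or_nonempty with he | hne
  · refine ⟨1, one_pos, fun u hu => ?_⟩
    rw [he] at hu
    exact absurd hu (Set.notMem_empty _)
  obtain ⟨u₀, hu₀, hmin⟩ := hΓ.exists_isMinOn hne hFc.continuousOn
  have hpos : 0 < F u₀ := by
    obtain ⟨x, hx, hxn⟩ := h u₀ hu₀
    refine intervalIntegral.integral_pos zero_lt_one ?_ ?_ ⟨x, hx, by positivity⟩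
    · exact (by fun_prop : Continuous fun x => (inner ℝ (X1 x) u₀ : ℝ) ^ 2).continuousOn
    · intro y _
      positivity
  refine ⟨Real.sqrt (F u₀ / 2), Real.sqrt_pos.2 (by positivity), fun u hu => ?_⟩
  by_contra hcon
  push Not at hcon
  have h1 : F u₀ ≤ F u := hmin hu
  have h2 : F u ≤ F u₀ / 2 := by
    have h3 : F u ≤ ∫ x in (0:ℝ)..1, F u₀ / 2 := by
      apply intervalIntegral.integral_mono_on zero_le_one
      · exact (by fun_prop : Continuous fun x => (inner ℝ (X1 x) u : ℝ) ^ 2).intervalIntegrable _ _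
      · exact intervalIntegrable_const
      · intro x hx
        have h4 := (hcon x hx).le
        have h5 := Real.sq_sqrt (show 0 ≤ F u₀ / 2 by positivity)
        rw [← sq_abs, ← h5]
        exact pow_le_pow_left₀ (abs_nonneg _) h4 2
    rw [intervalIntegral.integral_const] at h3
    simpa using h3
  linarith

variable {ι : Type} [Fintype ι] [DecidableEq ι] {κ : ι → Type}

/-- the space of the values -/
abbrev EE (ι : Type) : Type := PiLp 2 (fun _ : ι => ℂ)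

/-- the curve of several polynomials -/
noncomputable def Xm (G : ∀ i, Finset (κ i)) (Q : ∀ i, κ i → ℂ[X]) (x : ℝ) : EE ι :=
  WithLp.toLp 2 fun i => Xc (G i) (Q i) x

lemma inner_EE (z w : EE ι) : (inner ℝ z w : ℝ) = ∑ i, (z i * conj (w i)).re := by
  rw [PiLp.inner_apply]
  refine Finset.sum_congr rfl fun i _ => ?_
  rw [Complex.inner]
  simp only [Complex.mul_re, Complex.conj_re, Complex.conj_im]
  ring

/-- `toLp` as a linear homeomorphism -/
noncomputable def Le (ι : Type) [Fintype ι] : (ι → ℂ) ≃L[ℝ] EE ι := (PiLp.continuousLinearEquiv 2 ℝ (fun _ : ι => ℂ)).symm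

omit [DecidableEq ι] in
lemma Le_apply (z : ι → ℂ) : Le ι z = WithLp.toLp 2 z := rfl

omit [DecidableEq ι] in
lemma toLp_smooth_m {f : ι → ℝ → ℂ} (hf : ∀ i, ContDiff ℝ ∞ (f i)) :
    ContDiff ℝ ∞ fun x => (WithLp.toLp 2 (fun i => f i x) : EE ι) := by
  have h1 : ContDiff ℝ ∞ fun x => (fun i => f i x) := contDiff_pi.2 hf
  exact (Le ι).contDiff.comp h1

omit [DecidableEq ι] in
lemma toLp_deriv_m {f : ι → ℝ → ℂ} {f' : ι → ℂ} {x : ℝ} (hf : ∀ i, HasDerivAt (f i) (f' i) x) :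
    HasDerivAt (fun x => (WithLp.toLp 2 (fun i => f i x) : EE ι)) (WithLp.toLp 2 f') x := by
  have h1 : HasDerivAt (fun x => (fun i => f i x)) f' x := hasDerivAt_pi.2 hf
  exact ((Le ι).toContinuousLinearMap.hasFDerivAt.comp_hasDerivAt x h1)

/-- the numerator of a combination of logarithmic derivatives -/
noncomputable def Nm (P : ι → ℂ[X]) (c : ι → ℂ) : ℂ[X] :=
  ∑ i, C (c i) * (X * derivative (P i) * ∏ k ∈ Finset.univ.erase i, P k)

lemma Nm_deg (P : ι → ℂ[X]) (c : ι → ℂ) : (Nm P c).natDegree ≤ ∑ i, (P i).natDegree := by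
  unfold Nm
  refine natDegree_sum_le_of_forall_le _ _ fun i _ => ?_
  refine (natDegree_C_mul_le _ _).trans ?_
  have h0 : ∑ k, (P k).natDegree = (P i).natDegree + ∑ k ∈ Finset.univ.erase i, (P k).natDegree :=
    (Finset.add_sum_erase _ _ (Finset.mem_univ i)).symm
  have h1 : (∏ k ∈ Finset.univ.erase i, P k).natDegree ≤ ∑ k ∈ Finset.univ.erase i, (P k).natDegree :=
    natDegree_prod_le _ _
  rcases Nat.eq_zero_or_pos (P i).natDegree with h2 | h2
  · obtain ⟨a, ha⟩ := natDegree_eq_zero.1 h2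
    rw [← ha, derivative_C, mul_zero, zero_mul, natDegree_zero]
    exact Nat.zero_le _
  · have h3 := natDegree_derivative_le (P i)
    have h4 : (X * derivative (P i) : ℂ[X]).natDegree ≤ 1 + (derivative (P i)).natDegree :=
      (natDegree_mul_le).trans (by rw [natDegree_X])
    refine (natDegree_mul_le).trans ?_
    omega

lemma Nm_zero (P : ι → ℂ[X]) (c : ι → ℂ) : (Nm P c).coeff 0 = 0 := by
  unfold Nm
  rw [finset_sum_coeff]
  refine Finset.sum_eq_zero fun i _ => ?_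
  rw [mul_assoc, coeff_C_mul, coeff_X_mul_zero, mul_zero]

lemma Nm_eval (P : ι → ℂ[X]) (c : ι → ℂ) (z : ℂ) :
    (Nm P c).eval z = ∑ i, c i * (z * (derivative (P i)).eval z * ∏ k ∈ Finset.univ.erase i, (P k).eval z) := by
  unfold Nm
  rw [eval_finset_sum]
  refine Finset.sum_congr rfl fun i _ => ?_
  simp only [eval_mul, eval_C, eval_X, eval_prod]

/-- **decay for one prime, several curves** -/
theorem curve_decay_m {G : ∀ i, Finset (κ i)} {Q : ∀ i, κ i → ℂ[X]} {r : ℝ} (hr : r < 1)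
    (hb : ∀ i, ∀ v ∈ G i, ∀ z : ℂ, ‖z‖ = 1 → ‖(Q i v).eval z - 1‖ ≤ r) {M : ℕ} (hM1 : 1 ≤ M)
    (hDM : 2 * (∑ i, (∏ v ∈ G i, Q i v).natDegree) ≤ M) {Γ : Set (EE ι)} (hΓ : IsCompact Γ)
    (hne : ∀ u ∈ Γ, Nm (fun i => ∏ v ∈ G i, Q i v) (fun i => conj (u i)) ≠ 0) :
    ∃ C : ℝ, 0 < C ∧ ∀ ξ : EE ι, 1 ≤ ‖ξ‖ → ‖ξ‖⁻¹ • ξ ∈ Γ →
      ‖∫ x in Set.Icc (0:ℝ) 1, Complex.exp ((inner ℝ (Xm G Q x) ξ : ℝ) * Complex.I)‖ ≤
        C * ‖ξ‖ ^ (-(1 / (M : ℝ) / 8)) := by
  have hlt : ∀ i, ∀ v ∈ G i, ∀ z : ℂ, ‖z‖ = 1 → ‖(Q i v).eval z - 1‖ < 1 :=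
    fun i v hv z hz => (hb i v hv z hz).trans_lt hr
  set Pi : ι → ℂ[X] := fun i => ∏ v ∈ G i, Q i v with hPi
  have hX : ∀ i, ContDiff ℝ ∞ (Xc (G i) (Q i)) := fun i => Xc_smooth (hlt i)
  have hX1 : ∀ i, ContDiff ℝ ∞ (deriv (Xc (G i) (Q i))) := fun i => by simpa using (hX i).iterate_deriv 1
  have hX2 : ∀ i, ContDiff ℝ ∞ (deriv (deriv (Xc (G i) (Q i)))) := fun i => by simpa using (hX1 i).iterate_deriv 1
  have hd : ∀ {f : ℝ → ℂ}, ContDiff ℝ ∞ f → ∀ x, HasDerivAt f (deriv f x) x := fun hf x =>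
    (hf.differentiable (by simp)).differentiableAt.hasDerivAt
  -- the polynomials have no zeros in the disc
  have hz₁ : ∀ i, ∀ z : ℂ, ‖z‖ ≤ 1 → (Pi i).eval z ≠ 0 := by
    intro i z hz
    simp only [hPi]
    rw [eval_prod]
    refine Finset.prod_ne_zero_iff.2 fun v hv h0 => ?_
    have h1 := (ball_disc (hb i v hv) hz).trans_lt hr
    rw [h0, zero_sub, norm_neg, norm_one] at h1
    exact lt_irrefl _ h1
  have hn₁ : ∀ i, Pi i ≠ 0 := by
    intro i h
    have := hz₁ i 0 (by simp)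
    rw [h, eval_zero] at this
    exact this rfl
  set P : ℂ[X] := ∏ i, Pi i with hP
  set D : ℕ := ∑ i, (Pi i).natDegree with hD
  have hPd : P.natDegree = D := by
    rw [hP, natDegree_prod _ _ fun i _ => hn₁ i]
  have hPz : ∀ z : ℂ, ‖z‖ ≤ 1 → P.eval z ≠ 0 := fun z hz => by
    rw [hP, eval_prod]
    exact Finset.prod_ne_zero_iff.2 fun i _ => hz₁ i z hz
  set N : EE ι → ℂ[X] := fun u => Nm Pi (fun i => conj (u i)) with hN
  -- the formula for the derivative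
  set X1 : ℝ → EE ι := fun x => WithLp.toLp 2 fun i => deriv (Xc (G i) (Q i)) x with hX1def
  set X2 : ℝ → EE ι := fun x => WithLp.toLp 2 fun i => deriv (deriv (Xc (G i) (Q i))) x with hX2def
  have hform : ∀ (u : EE ι) (x : ℝ), (inner ℝ (X1 x) u : ℝ) * ‖P.eval (e x)‖ ^ 2 =
      2 * Real.pi * ((N u).eval (e x) * conj (P.eval (e x))).im := by
    intro u x
    rw [inner_EE]
    set z : ℂ := e x with hz
    have h1 : ∀ i, deriv (Xc (G i) (Q i)) x * (Pi i).eval z =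
        -(2 * Real.pi * Complex.I) * (z * (derivative (Pi i)).eval z) := fun i => Xc_deriv (hlt i) x
    have h3 : (∑ i, deriv (Xc (G i) (Q i)) x * conj (u i)) * P.eval z =
        -(2 * Real.pi * Complex.I) * (N u).eval z := by
      rw [hN]
      simp only
      rw [Nm_eval, Finset.mul_sum, Finset.sum_mul]
      refine Finset.sum_congr rfl fun i _ => ?_
      rw [hP, eval_prod, ← Finset.mul_prod_erase _ _ (Finset.mem_univ i)]
      linear_combination (conj (u i) * ∏ k ∈ Finset.univ.erase i, (Pi k).eval z) * h1 i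
    have h5 : (∑ i, deriv (Xc (G i) (Q i)) x * conj (u i)) * ((‖P.eval z‖ ^ 2 : ℝ) : ℂ) =
        -(2 * Real.pi * Complex.I) * ((N u).eval z * conj (P.eval z)) := by
      have h4 : ((‖P.eval z‖ ^ 2 : ℝ) : ℂ) = P.eval z * conj (P.eval z) := by
        rw [Complex.mul_conj, Complex.normSq_eq_norm_sq]
      rw [h4]
      linear_combination (conj (P.eval z)) * h3
    have h4 := congrArg Complex.re h5
    rw [Complex.re_mul_ofReal, Complex.re_sum] at h4
    have h6 : ∑ i, ((X1 x) i * conj (u i)).re = ∑ i, (deriv (Xc (G i) (Q i)) x * conj (u i)).re := rfl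
    rw [h6, h4]
    generalize ((N u).eval z * conj (P.eval z)) = w
    simp [Complex.mul_re]
  set Qu : EE ι → ℂ[X] := fun u => N u * star D P - P * star D (N u) with hQu
  have hNd : ∀ u, (N u).natDegree ≤ D := fun u => Nm_deg _ _
  have hQud : ∀ u, (Qu u).natDegree ≤ 2 * D := fun u => (impoly P _ hPd.le (hNd u)).1
  have hQuv : ∀ u x, ‖(Qu u).eval (e x)‖ * Real.pi = |(inner ℝ (X1 x) u : ℝ)| * ‖P.eval (e x)‖ ^ 2 := by
    intro u x
    have h1 := (impoly P _ hPd.le (hNd u)).2 (e x) (e_norm x)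
    rw [hQu]
    simp only
    rw [h1]
    have h2 := congrArg abs (hform u x)
    rw [abs_mul, abs_mul, abs_mul, abs_two, abs_of_pos Real.pi_pos, abs_of_nonneg (sq_nonneg ‖P.eval (e x)‖)] at h2
    rw [h2]
    ring
  have hX1c : Continuous X1 := (toLp_smooth_m hX1).continuous
  have hlow := unif_low' hX1c hΓ (fun u hu => by
    have h1 : Qu u ≠ 0 := impoly_ne hPd (hNd u) (Nm_zero _ _) (hne u hu) hPz
    obtain ⟨x, hx, hx1⟩ := ne_on_circle h1
    refine ⟨x, hx, fun h0 => ?_⟩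
    have h2 := hQuv u x
    rw [h0, abs_zero, zero_mul] at h2
    rcases mul_eq_zero.1 h2 with h3 | h3
    · exact hx1 (norm_eq_zero.1 h3)
    · exact Real.pi_ne_zero h3)
  obtain ⟨μ, hμ, hlow⟩ := hlow
  -- bounds for `P`
  have hPc : Continuous fun x : ℝ => P.eval (e x) := (eval_e_smooth P).continuous
  obtain ⟨B, hB0, hBB⟩ : ∃ B : ℝ, 0 < B ∧ ∀ x ∈ Set.Icc (0:ℝ) 1, ‖P.eval (e x)‖ ≤ B := by
    obtain ⟨B, hB⟩ := (isCompact_Icc (a := (0:ℝ)) (b := 1)).exists_bound_of_continuousOn hPc.continuousOn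
    exact ⟨max B 1, lt_of_lt_of_le one_pos (le_max_right _ _), fun x hx => (hB x hx).trans (le_max_left _ _)⟩
  obtain ⟨p0, hp00, hp0⟩ : ∃ p0 : ℝ, 0 < p0 ∧ ∀ x ∈ Set.Icc (0:ℝ) 1, p0 ≤ ‖P.eval (e x)‖ := by
    obtain ⟨x₀, hx₀, hmin⟩ := (isCompact_Icc (a := (0:ℝ)) (b := 1)).exists_isMinOn
      (Set.nonempty_Icc.2 zero_le_one) hPc.norm.continuousOn
    exact ⟨‖P.eval (e x₀)‖, norm_pos_iff.2 (hPz _ (e_norm x₀).le), fun x hx => hmin hx⟩
  set μ' : ℝ := μ * p0 ^ 2 / Real.pi with hμ'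
  have hμ'0 : 0 < μ' := by positivity
  have hM0 : (0:ℝ) < M := by exact_mod_cast hM1
  refine osc_decay_dir (X := Xm G Q) (X1 := X1) (X2 := X2)
    (A := 9 * (M : ℝ) * (2 * B ^ 2 / μ') ^ (1 / (M : ℝ))) (b := 1 / (M : ℝ))
    (fun x => toLp_deriv_m fun i => hd (hX i) x) (fun x => toLp_deriv_m fun i => hd (hX1 i) x)
    (toLp_smooth_m hX2).continuous ?_ ?_ (by positivity) ?_ ?_
  · unfold Xm Xc
    rw [e_one, e_zero]
  · have h0 : ∀ i, deriv (Xc (G i) (Q i)) 1 = deriv (Xc (G i) (Q i)) 0 := by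
      intro i
      have h1 : deriv (Xc (G i) (Q i)) 1 * (Pi i).eval (e 1) = _ := Xc_deriv (hlt i) 1
      have h0 : deriv (Xc (G i) (Q i)) 0 * (Pi i).eval (e 0) = _ := Xc_deriv (hlt i) 0
      rw [e_one] at h1
      rw [e_zero] at h0
      exact mul_right_cancel₀ (hz₁ i 1 (by simp)) (h1.trans h0.symm)
    rw [hX1def]
    simp only [h0]
  · rw [div_le_one hM0]
    exact_mod_cast hM1
  · intro u hu τ hτ hτ1
    obtain ⟨x₀, hx₀, hx₀'⟩ := hlow u hu
    have hQx : μ' ≤ ‖(Qu u).eval (e x₀)‖ := by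
      rw [hμ', div_le_iff₀ Real.pi_pos, hQuv]
      have := hp0 x₀ hx₀
      gcongr
    have hsub : {x ∈ Set.Icc (0:ℝ) 1 | |(inner ℝ (X1 x) u : ℝ)| ≤ τ} ⊆
        {x ∈ Set.Icc (0:ℝ) 1 | ‖(Qu u).eval (e x)‖ ≤ τ * B ^ 2} := by
      intro x hx
      refine ⟨hx.1, ?_⟩
      have h1 := hQuv u x
      have h2 : |(inner ℝ (X1 x) u : ℝ)| * ‖P.eval (e x)‖ ^ 2 ≤ τ * B ^ 2 :=
        mul_le_mul hx.2 (pow_le_pow_left₀ (norm_nonneg _) (hBB x hx.1) 2) (by positivity) hτ.le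
      have h7 : 1 ≤ Real.pi := by linarith [Real.pi_gt_three]
      have h8 := norm_nonneg ((Qu u).eval (e x))
      nlinarith
    refine (measure_mono hsub).trans ?_
    refine (sublevel2 (Qu u) (m := M) hM1 ((hQud u).trans hDM) hμ'0 (e_norm x₀) hQx (δ := τ * B ^ 2)
      (by positivity)).trans ?_
    apply ENNReal.ofReal_le_ofReal
    have h1 : 2 * (τ * B ^ 2) / μ' = (2 * B ^ 2 / μ') * τ := by ring
    rw [h1, Real.mul_rpow (by positivity) hτ.le, ← mul_assoc]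

end Run7.h401.SM
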