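import Mathlib
import Pool.Agent.Run7.h401.SD.Pr2
import Pool.Agent.Run7.h401.SM.A

/-!
Several random Euler products on one torus.
-/

set_option autoImplicit false

open MeasureTheory Filter Topology NumberField IsDedekindDomain Polynomial
open scoped ENNReal ComplexConjugate
open Pool.Agent.H921R2.TatePole (nm two_le_nm below deg nm_eq below_le_nm card_above fiber_finite)
open Pool.Agent.H341R2.EC
open Pool.Agent.R433.MD (lf norm_nm_cpow lf_sub_one nm_pos)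
open Run7.h113.LE

namespace Run7.h401.SM
open Run7.h401.SD

variable {ι : Type} [Fintype ι] [DecidableEq ι] {K : ι → Type} [∀ i, Field (K i)] [∀ i, NumberField (K i)]

/-- the vector of the random Euler products -/
noncomputable def RRm (V : ∀ i, HeightOneSpectrum (𝓞 (K i)) → WeierstrassCurve (𝓞 (K i))) (σ τ : ι → ℝ) (Y : ℕ)
    (θ : Nat.primesBelow Y → ℝ) : EE ι :=
  WithLp.toLp 2 fun i => RY (V i) (σ i) Y (pt fun p => θ p + τ i * om Y p)

/-- the polynomials of the prime `p` -/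
noncomputable def Qs (V : ∀ i, HeightOneSpectrum (𝓞 (K i)) → WeierstrassCurve (𝓞 (K i))) (σ τ : ι → ℝ) (p : ℕ) (i : ι) :
    HeightOneSpectrum (𝓞 (K i)) → ℂ[X] := sh (e (τ i * fr p)) (Qv (V i) (σ i))

/-- the factor of the prime `p` -/
noncomputable def phim (V : ∀ i, HeightOneSpectrum (𝓞 (K i)) → WeierstrassCurve (𝓞 (K i))) (σ τ : ι → ℝ) (Y : ℕ)
    (ξ : EE ι) (p : ℕ) : ℂ :=
  ∫ x in Set.Icc (0:ℝ) 1, Complex.exp ((inner ℝ (Xm (fun i => Gp (K i) Y p) (Qs V σ τ p) x) ξ : ℝ) * Complex.I)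

lemma phim_le (V : ∀ i, HeightOneSpectrum (𝓞 (K i)) → WeierstrassCurve (𝓞 (K i))) (σ τ : ι → ℝ) (Y : ℕ)
    (ξ : EE ι) (p : ℕ) : ‖phim V σ τ Y ξ p‖ ≤ 1 := by
  unfold phim
  refine (norm_integral_le_of_norm_le_const (C := 1) (Eventually.of_forall fun x => ?_)).trans ?_
  · rw [Complex.norm_exp_ofReal_mul_I]
  · rw [measureReal_def, Measure.restrict_apply_univ, Real.volume_Icc]
    simp

lemma RRm_split (V : ∀ i, HeightOneSpectrum (𝓞 (K i)) → WeierstrassCurve (𝓞 (K i))) (σ τ : ι → ℝ) (Y : ℕ)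
    (θ : Nat.primesBelow Y → ℝ) :
    RRm V σ τ Y θ = ∑ p : Nat.primesBelow Y, Xm (fun i => Gp (K i) Y p) (Qs V σ τ p) (θ p) := by
  unfold RRm Xm Qs
  simp only [RY_split, Xc_sh]
  have h1 := map_sum (Le ι) (fun p : Nat.primesBelow Y =>
    (fun i => Xc (Gp (K i) Y p) (Qv (V i) (σ i)) (θ p + τ i * fr p))) Finset.univ
  refine Eq.trans ?_ h1
  rw [Le_apply]
  congr 1
  funext i
  rw [Finset.sum_apply]
  rfl

/-- **the characteristic function is a product** -/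
theorem char_prodm (V : ∀ i, HeightOneSpectrum (𝓞 (K i)) → WeierstrassCurve (𝓞 (K i))) (σ τ : ι → ℝ) (Y : ℕ)
    (ξ : EE ι) :
    ∫ θ, Complex.exp ((inner ℝ (RRm V σ τ Y θ) ξ : ℝ) * Complex.I) ∂(cube (Nat.primesBelow Y)) =
      ∏ p ∈ Nat.primesBelow Y, phim V σ τ Y ξ p := by
  have h1 : ∀ θ : Nat.primesBelow Y → ℝ, Complex.exp ((inner ℝ (RRm V σ τ Y θ) ξ : ℝ) * Complex.I) =
      ∏ p : Nat.primesBelow Y, Complex.exp ((inner ℝ (Xm (fun i => Gp (K i) Y p) (Qs V σ τ p) (θ p)) ξ : ℝ) *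
        Complex.I) := by
    intro θ
    rw [RRm_split, sum_inner, ← Complex.exp_sum]
    congr 1
    push_cast
    rw [Finset.sum_mul]
  simp_rw [h1]
  unfold cube
  rw [integral_fintype_prod_eq_prod (fun (p : Nat.primesBelow Y) (x : ℝ) =>
    Complex.exp ((inner ℝ (Xm (fun i => Gp (K i) Y p) (Qs V σ τ p) x) ξ : ℝ) * Complex.I))]
  exact Finset.prod_coe_sort (Nat.primesBelow Y) fun p => phim V σ τ Y ξ p

/-- the polynomials of the rational prime `p`, one for every curve -/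
noncomputable def PP (V : ∀ i, HeightOneSpectrum (𝓞 (K i)) → WeierstrassCurve (𝓞 (K i))) (σ τ : ι → ℝ) (p : ℕ) (i : ι) :
    ℂ[X] := ∏ v ∈ Gf (K i) p, Qs V σ τ p i v

/-- the numerator at `p` in the direction `u` -/
noncomputable def NN (V : ∀ i, HeightOneSpectrum (𝓞 (K i)) → WeierstrassCurve (𝓞 (K i))) (σ τ : ι → ℝ) (p : ℕ)
    (u : EE ι) : ℂ[X] := Nm (PP V σ τ p) (fun i => conj (u i))

lemma PP_deg (V : ∀ i, HeightOneSpectrum (𝓞 (K i)) → WeierstrassCurve (𝓞 (K i))) (σ τ : ι → ℝ) {p : ℕ} (hp : p.Prime)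
    (i : ι) : (PP V σ τ p i).natDegree ≤ 2 * Module.finrank ℚ (K i) := by
  unfold PP Qs
  have ha : e (τ i * fr p) ≠ 0 := e_ne _
  refine (natDegree_prod_le _ _).trans ?_
  simp only [sh_deg ha]
  have h3 : ∑ w ∈ Gf (K i) p, (Qv (V i) (σ i) w).natDegree ≤ ∑ w ∈ Gf (K i) p, 2 * deg w :=
    Finset.sum_le_sum fun w _ => Qv_deg (V i) (σ i) w
  rw [← Finset.mul_sum] at h3
  have h4 := sum_deg_le (Gf (K i) p) (p := p) fun w hw => (mem_Gf hp).1 hw
  omega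

/-- the exponent -/
noncomputable def MM (K : ι → Type) [∀ i, Field (K i)] [∀ i, NumberField (K i)] : ℕ :=
  4 * (∑ i, Module.finrank ℚ (K i)) + 1

/-- decay for one prime -/
lemma one_primem (V : ∀ i, HeightOneSpectrum (𝓞 (K i)) → WeierstrassCurve (𝓞 (K i))) {σ : ι → ℝ} (hσ : ∀ i, 0 ≤ σ i)
    (τ : ι → ℝ) {p : ℕ} (hp : p.Prime) {Γ : Set (EE ι)} (hΓ : IsCompact Γ) (hne : ∀ u ∈ Γ, NN V σ τ p u ≠ 0) :
    ∃ C : ℝ, 0 < C ∧ ∀ Y : ℕ, (∀ i, p ^ Module.finrank ℚ (K i) + 1 ≤ Y) →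
      ∀ ξ : EE ι, 1 ≤ ‖ξ‖ → ‖ξ‖⁻¹ • ξ ∈ Γ → ‖phim V σ τ Y ξ p‖ ≤ C * ‖ξ‖ ^ (-(1 / ((MM K : ℕ) : ℝ) / 8)) := by
  obtain ⟨C, hC, hmain⟩ := curve_decay_m (G := fun i => Gf (K i) p) (Q := Qs V σ τ p) (r := 96 / 100) (by norm_num)
    (fun i w _ z hz => by
      unfold Qs
      rw [sh_eval, Qv_eval]
      exact tf_ball (V i) (hσ i) w (by rw [norm_pow, norm_mul, e_norm, hz, one_mul, one_pow]))
    (M := MM K) (by unfold MM; omega) (by
      have h1 : ∑ i, (∏ v ∈ Gf (K i) p, Qs V σ τ p i v).natDegree ≤ ∑ i, 2 * Module.finrank ℚ (K i) :=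
        Finset.sum_le_sum fun i _ => PP_deg V σ τ hp i
      rw [← Finset.mul_sum] at h1
      unfold MM
      omega) hΓ hne
  refine ⟨C, hC, fun Y hY ξ hξ hξΓ => ?_⟩
  unfold phim
  have h1 : (fun i => Gp (K i) Y p) = fun i => Gf (K i) p := funext fun i => Gp_stable hp (hY i)
  rw [h1]
  exact hmain ξ hξ hξΓ

/-- **rapid decay** -/
theorem decay_mainm (V : ∀ i, HeightOneSpectrum (𝓞 (K i)) → WeierstrassCurve (𝓞 (K i))) {σ : ι → ℝ} (hσ : ∀ i, 0 ≤ σ i)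
    (τ : ι → ℝ) (hinf : ∀ u : EE ι, u ≠ 0 → {p : ℕ | p.Prime ∧ NN V σ τ p u ≠ 0}.Infinite) (N : ℕ) :
    ∃ (C : ℝ) (Y₀ : ℕ), 0 < C ∧ ∀ Y : ℕ, Y₀ ≤ Y → ∀ ξ : EE ι, 1 ≤ ‖ξ‖ →
      ‖∏ p ∈ Nat.primesBelow Y, phim V σ τ Y ξ p‖ ≤ C * ‖ξ‖ ^ (-(N : ℝ)) := by
  classical
  have hM0 : (0:ℝ) < (MM K : ℝ) := by
    have : 0 < MM K := by unfold MM; omega
    exact_mod_cast this
  set Pr : Set (EE ι) → Prop := fun Γ => ∃ (C : ℝ) (Y₀ : ℕ), 0 < C ∧ ∀ Y : ℕ, Y₀ ≤ Y → ∀ ξ : EE ι, 1 ≤ ‖ξ‖ →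
    ‖ξ‖⁻¹ • ξ ∈ Γ → ‖∏ p ∈ Nat.primesBelow Y, phim V σ τ Y ξ p‖ ≤ C * ‖ξ‖ ^ (-(N : ℝ)) with hPr
  have hmain : Pr (Metric.sphere (0 : EE ι) 1) := by
    refine (isCompact_sphere (0 : EE ι) 1).induction_on (p := Pr) ?_ ?_ ?_ ?_
    · exact ⟨1, 0, one_pos, fun Y _ ξ _ h => absurd h (Set.notMem_empty _)⟩
    · rintro s t hst ⟨C, Y₀, hC, h⟩
      exact ⟨C, Y₀, hC, fun Y hY ξ hξ hs => h Y hY ξ hξ (hst hs)⟩
    · rintro s t ⟨C, Y₀, hC, h⟩ ⟨C', Y₀', hC', h'⟩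
      refine ⟨max C C', max Y₀ Y₀', lt_of_lt_of_le hC (le_max_left _ _), fun Y hY ξ hξ hs => ?_⟩
      have hξ0 : 0 ≤ ‖ξ‖ ^ (-(N : ℝ)) := by positivity
      rcases hs with hs | hs
      · exact (h Y ((le_max_left _ _).trans hY) ξ hξ hs).trans (mul_le_mul_of_nonneg_right (le_max_left _ _) hξ0)
      · exact (h' Y ((le_max_right _ _).trans hY) ξ hξ hs).trans (mul_le_mul_of_nonneg_right (le_max_right _ _) hξ0)
    · intro u₀ hu₀
      have hu₀ne : u₀ ≠ 0 := by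
        rintro rfl
        simp at hu₀
      obtain ⟨S, hS, hcard⟩ := (hinf u₀ hu₀ne).exists_subset_card_eq (8 * MM K * N)
      -- coefficients
      have hco : ∀ p : ℕ, ∃ k : ℕ, p ∈ S → (NN V σ τ p u₀).coeff k ≠ 0 := by
        intro p
        by_cases hp : p ∈ S
        · have h1 := (hS hp).2
          by_contra hcon
          push Not at hcon
          apply h1
          ext k
          rw [coeff_zero]
          exact (hcon k).2
        · exact ⟨0, fun h => absurd h hp⟩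
      choose k hk using hco
      have hcont : ∀ p, Continuous fun u : EE ι => (NN V σ τ p u).coeff (k p) := by
        intro p
        unfold NN Nm
        simp only [finsetSum_coeff, coeff_C_mul]
        refine continuous_finset_sum _ fun i _ => Continuous.mul ?_ continuous_const
        exact Complex.continuous_conj.comp (by fun_prop)
      have hopen : IsOpen {u : EE ι | ∀ p ∈ S, (NN V σ τ p u).coeff (k p) ≠ 0} := by
        have : {u : EE ι | ∀ p ∈ S, (NN V σ τ p u).coeff (k p) ≠ 0} =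
            ⋂ p ∈ S, {u : EE ι | (NN V σ τ p u).coeff (k p) ≠ 0} := by
          ext u
          simp
        rw [this]
        exact isOpen_biInter_finset fun p _ => isOpen_ne_fun (hcont p) continuous_const
      obtain ⟨r, hr, hball⟩ := Metric.isOpen_iff.1 hopen u₀ (fun p hp => hk p hp)
      refine ⟨Metric.closedBall u₀ (r / 2), mem_nhdsWithin_of_mem_nhds (Metric.closedBall_mem_nhds _ (by positivity)), ?_⟩
      have hΓc : IsCompact (Metric.closedBall u₀ (r / 2)) := isCompact_closedBall _ _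
      have hsubΓ : ∀ u ∈ Metric.closedBall u₀ (r / 2), ∀ p ∈ S, NN V σ τ p u ≠ 0 := by
        intro u hu p hp h0
        have h1 : u ∈ Metric.ball u₀ r := by
          rw [Metric.mem_closedBall] at hu
          rw [Metric.mem_ball]
          linarith
        apply hball h1 p hp
        rw [h0, coeff_zero]
      have hch : ∀ p : ℕ, ∃ C : ℝ, 0 < C ∧ (p ∈ S → ∀ Y : ℕ, (∀ i, p ^ Module.finrank ℚ (K i) + 1 ≤ Y) →
          ∀ ξ : EE ι, 1 ≤ ‖ξ‖ → ‖ξ‖⁻¹ • ξ ∈ Metric.closedBall u₀ (r / 2) →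
            ‖phim V σ τ Y ξ p‖ ≤ C * ‖ξ‖ ^ (-(1 / ((MM K : ℕ) : ℝ) / 8))) := by
        intro p
        by_cases hp : p ∈ S
        · obtain ⟨C, hC, h⟩ := one_primem V hσ τ (hS hp).1 hΓc fun u hu => hsubΓ u hu p hp
          exact ⟨C, hC, fun _ => h⟩
        · exact ⟨1, one_pos, fun h => absurd h hp⟩
      choose C hC hmain using hch
      refine ⟨∏ p ∈ S, C p, S.sup (fun p => p + 1 + ∑ i, (p ^ Module.finrank ℚ (K i) + 1)),
        Finset.prod_pos fun p _ => hC p, fun Y hY ξ hξ hξΓ => ?_⟩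
      have hYp : ∀ p ∈ S, p + 1 + ∑ i, (p ^ Module.finrank ℚ (K i) + 1) ≤ Y := fun p hp =>
        (Finset.le_sup (f := fun p => p + 1 + ∑ i, (p ^ Module.finrank ℚ (K i) + 1)) hp).trans hY
      have hYi : ∀ p ∈ S, ∀ i, p ^ Module.finrank ℚ (K i) + 1 ≤ Y := by
        intro p hp i
        have h1 := hYp p hp
        have h2 : p ^ Module.finrank ℚ (K i) + 1 ≤ ∑ i, (p ^ Module.finrank ℚ (K i) + 1) :=
          Finset.single_le_sum (f := fun i => p ^ Module.finrank ℚ (K i) + 1) (fun _ _ => Nat.zero_le _)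
            (Finset.mem_univ i)
        omega
      have hsub : S ⊆ Nat.primesBelow Y := by
        intro p hp
        rw [Nat.mem_primesBelow]
        refine ⟨?_, (hS hp).1⟩
        have h1 := hYp p hp
        omega
      have hξ0 : 0 < ‖ξ‖ := by linarith
      rw [norm_prod, ← Finset.prod_sdiff hsub]
      have h1 : ∏ p ∈ Nat.primesBelow Y \ S, ‖phim V σ τ Y ξ p‖ ≤ 1 :=
        Finset.prod_le_one (fun p _ => norm_nonneg _) fun p _ => phim_le V σ τ Y ξ p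
      have h2 : ∏ p ∈ S, ‖phim V σ τ Y ξ p‖ ≤ ∏ p ∈ S, (C p * ‖ξ‖ ^ (-(1 / ((MM K : ℕ) : ℝ) / 8))) :=
        Finset.prod_le_prod (fun p _ => norm_nonneg _) fun p hp => hmain p hp Y (hYi p hp) ξ hξ hξΓ
      have h3 : ∏ p ∈ S, (C p * ‖ξ‖ ^ (-(1 / ((MM K : ℕ) : ℝ) / 8))) = (∏ p ∈ S, C p) * ‖ξ‖ ^ (-(N : ℝ)) := by
        rw [Finset.prod_mul_distrib, Finset.prod_const, hcard, ← Real.rpow_natCast, ← Real.rpow_mul hξ0.le]
        congr 2
        push_cast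
        field_simp
      have h4 : 0 ≤ ∏ p ∈ S, ‖phim V σ τ Y ξ p‖ := Finset.prod_nonneg fun p _ => norm_nonneg _
      calc _ ≤ 1 * ∏ p ∈ S, ‖phim V σ τ Y ξ p‖ := mul_le_mul_of_nonneg_right h1 h4
        _ = ∏ p ∈ S, ‖phim V σ τ Y ξ p‖ := one_mul _
        _ ≤ _ := by rw [← h3]; exact h2
  obtain ⟨C, Y₀, hC, h⟩ := hmain
  refine ⟨C, Y₀, hC, fun Y hY ξ hξ => h Y hY ξ hξ ?_⟩
  have hξ0 : 0 < ‖ξ‖ := by linarith
  rw [mem_sphere_zero_iff_norm, norm_smul, norm_inv, norm_norm, inv_mul_cancel₀ hξ0.ne']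

end Run7.h401.SM
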