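import Mathlib
import Pool.Agent.H341R2.PrimeSums
import Pool.Agent.Run7.h401.SM.B

/-!
From complex directions to integer exponents; the roots.
-/

set_option autoImplicit false

open Filter Topology NumberField IsDedekindDomain Polynomial
open scoped ComplexConjugate

namespace Run7.h401.SM
open Run7.h401.SD

section alg

variable {ι : Type} [Fintype ι] [DecidableEq ι]

/-- a linear relation between the logarithmic derivatives gives relations between the multiplicities of the roots -/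
lemma mult_rel {P : ι → ℂ[X]} (hP : ∀ i, P i ≠ 0) {c : ι → ℂ} (h : Nm P c = 0) (ρ : ℂ) :
    ∑ i, c i * (rootMultiplicity ρ (P i) : ℂ) = 0 := by
  choose R hR hR' using fun i => exists_eq_pow_rootMultiplicity_mul_and_not_dvd (P i) (hP i) ρ
  set m : ι → ℕ := fun i => rootMultiplicity ρ (P i) with hm
  set L : ℂ[X] := X - C ρ with hL
  have hLne : L ≠ 0 := X_sub_C_ne_zero ρ
  have hd : ∀ i, L * derivative (P i) = L ^ m i * (C (m i : ℂ) * R i + L * derivative (R i)) := by
    intro i
    have e1 : derivative (P i) = C (m i : ℂ) * L ^ (m i - 1) * R i + L ^ m i * derivative (R i) := by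
      conv_lhs => rw [hR i]
      rw [derivative_mul, derivative_X_sub_C_pow]
    rw [e1]
    rcases Nat.eq_zero_or_pos (m i) with h0 | h0
    · rw [h0]
      simp
    · have e2 : L ^ m i = L * L ^ (m i - 1) := by
        rw [← pow_succ']
        congr 1
        omega
      rw [e2]
      ring
  have key : L * Nm P c = X * L ^ (∑ i, m i) *
      ∑ i, C (c i) * ((C (m i : ℂ) * R i + L * derivative (R i)) * ∏ k ∈ Finset.univ.erase i, R k) := by
    unfold Nm
    rw [Finset.mul_sum, Finset.mul_sum]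
    refine Finset.sum_congr rfl fun i _ => ?_
    have e1 : ∏ k ∈ Finset.univ.erase i, P k = L ^ (∑ k ∈ Finset.univ.erase i, m k) * ∏ k ∈ Finset.univ.erase i, R k := by
      rw [← Finset.prod_pow_eq_pow_sum, ← Finset.prod_mul_distrib]
      exact Finset.prod_congr rfl fun k _ => hR k
    have e2 : L ^ (∑ i, m i) = L ^ m i * L ^ (∑ k ∈ Finset.univ.erase i, m k) := by
      rw [← pow_add, Finset.add_sum_erase _ _ (Finset.mem_univ i)]
    rw [e1, e2]
    linear_combination (C (c i) * X * L ^ (∑ k ∈ Finset.univ.erase i, m k) * ∏ k ∈ Finset.univ.erase i, R k) * hd i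
  rw [h, mul_zero] at key
  have h1 : X * L ^ (∑ i, m i) ≠ 0 := mul_ne_zero X_ne_zero (pow_ne_zero _ hLne)
  have h2 := (mul_eq_zero.1 key.symm).resolve_left h1
  have h3 := congrArg (fun Q : ℂ[X] => Q.eval ρ) h2
  simp only [eval_finsetSum, eval_mul, eval_C, eval_add, eval_prod, eval_zero] at h3
  have h4 : L.eval ρ = 0 := by rw [hL]; simp
  have h5 : ∀ i, c i * (((m i : ℂ) * (R i).eval ρ + L.eval ρ * (derivative (R i)).eval ρ) *
      ∏ k ∈ Finset.univ.erase i, (R k).eval ρ) = c i * (m i : ℂ) * ∏ k, (R k).eval ρ := by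
    intro i
    rw [h4, zero_mul, add_zero, ← Finset.mul_prod_erase _ _ (Finset.mem_univ i)]
    ring
  simp only [h5] at h3
  rw [← Finset.sum_mul] at h3
  refine (mul_eq_zero.1 h3).resolve_right (Finset.prod_ne_zero_iff.2 fun k _ hk => ?_)
  exact hR' k (dvd_iff_isRoot.2 hk)

omit [DecidableEq ι] in
/-- integer vectors -/
lemma int_vec {u : ι → ℂ} (hu : u ≠ 0) : ∃ n : ι → ℤ, n ≠ 0 ∧ ∀ m : ι → ℕ, ∑ i, u i * (m i : ℂ) = 0 →
    ∑ i, n i * (m i : ℤ) = 0 := by
  obtain ⟨i₀, hi₀⟩ := Function.ne_iff.1 hu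
  obtain ⟨φ, hφ⟩ : ∃ φ : Module.Dual ℚ ℂ, φ (u i₀) ≠ 0 := by
    by_contra hcon
    push Not at hcon
    exact hi₀ ((Module.forall_dual_apply_eq_zero_iff ℚ (u i₀)).1 hcon)
  classical
  set d : ℕ := ∏ i, (φ (u i)).den with hd
  have hd0 : d ≠ 0 := Finset.prod_ne_zero_iff.2 fun i _ => (φ (u i)).den_nz
  have hn : ∀ i, ((φ (u i)).num * ∏ k ∈ Finset.univ.erase i, ((φ (u k)).den : ℤ) : ℚ) = φ (u i) * d := by
    intro i
    rw [hd, ← Finset.mul_prod_erase _ _ (Finset.mem_univ i)]
    push_cast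
    have h3 : ((φ (u i)).num : ℚ) = φ (u i) * (φ (u i)).den := (Rat.mul_den_eq_num (φ (u i))).symm
    rw [h3]
    ring
  refine ⟨fun i => (φ (u i)).num * ∏ k ∈ Finset.univ.erase i, ((φ (u k)).den : ℤ), ?_, fun m hm => ?_⟩
  · intro h0
    have h1 := congrFun h0 i₀
    have h2 := hn i₀
    simp only [Pi.zero_apply] at h1
    have h3 : ((φ (u i₀)).num * ∏ k ∈ Finset.univ.erase i₀, ((φ (u k)).den : ℤ) : ℚ) = 0 := by
      have := congrArg (fun z : ℤ => (z : ℚ)) h1
      push_cast at this ⊢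
      exact this
    rw [h3] at h2
    have h4 : (d : ℚ) ≠ 0 := by exact_mod_cast hd0
    exact hφ ((mul_eq_zero.1 h2.symm).resolve_right h4)
  · have h1 : φ (∑ i, u i * (m i : ℂ)) = 0 := by rw [hm, map_zero]
    rw [map_sum] at h1
    have h2 : ∀ i, φ (u i * (m i : ℂ)) = φ (u i) * m i := by
      intro i
      have : u i * (m i : ℂ) = m i • u i := by rw [nsmul_eq_mul, mul_comm]
      rw [this, map_nsmul, nsmul_eq_mul, mul_comm]
    simp only [h2] at h1
    have h3 : ((∑ i, ((φ (u i)).num * ∏ k ∈ Finset.univ.erase i, ((φ (u k)).den : ℤ)) * (m i : ℤ) : ℤ) : ℚ) = 0 := by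
      push_cast
      have h4 : ∀ i, ((φ (u i)).num : ℚ) * (∏ k ∈ Finset.univ.erase i, ((φ (u k)).den : ℚ)) * (m i : ℚ) =
          d * (φ (u i) * m i) := by
        intro i
        have := hn i
        push_cast at this
        rw [this]
        ring
      simp only [h4]
      rw [← Finset.mul_sum, h1, mul_zero]
    exact_mod_cast h3

/-- equality of polynomials from the roots and one value -/
lemma eq_of_roots {A B : ℂ[X]} (h : A.roots = B.roots) (h0 : A.eval 0 = B.eval 0) (hne : A.eval 0 ≠ 0) : A = B := by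
  have hf : ∀ Q : ℂ[X], Q = C Q.leadingCoeff * (Q.roots.map fun a => X - C a).prod := by
    intro Q
    refine (C_leadingCoeff_mul_prod_multiset_X_sub_C ?_).symm
    exact (splits_iff_card_roots.1 (IsAlgClosed.splits Q))
  have hA := hf A
  have hB := hf B
  rw [← h] at hB
  set R : ℂ[X] := (A.roots.map fun a => X - C a).prod with hR
  have e1 : A.eval 0 = A.leadingCoeff * R.eval 0 := by
    conv_lhs => rw [hA]
    rw [eval_mul, eval_C]
  have e2 : B.eval 0 = B.leadingCoeff * R.eval 0 := by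
    conv_lhs => rw [hB]
    rw [eval_mul, eval_C]
  have hR0 : R.eval 0 ≠ 0 := by
    intro h1
    rw [h1, mul_zero] at e1
    exact hne e1
  have e3 : A.leadingCoeff = B.leadingCoeff := by
    rw [e1, e2] at h0
    exact mul_right_cancel₀ hR0 h0
  rw [hA, hB, e3]

omit [DecidableEq ι] in
lemma count_prod {P : ι → ℂ[X]} (hP : ∀ i, P i ≠ 0) (a : ι → ℕ) (ρ : ℂ) :
    (∏ i, P i ^ a i).roots.count ρ = ∑ i, a i * rootMultiplicity ρ (P i) := by
  classical
  rw [roots_prod _ _ (Finset.prod_ne_zero_iff.2 fun i _ => pow_ne_zero _ (hP i))]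
  rw [Multiset.count_bind]
  refine Finset.sum_congr rfl fun i _ => ?_
  rw [roots_pow, Multiset.count_nsmul, count_roots]

omit [DecidableEq ι] in
/-- the relation of the products -/
lemma prod_rel {P : ι → ℂ[X]} (hP : ∀ i, (P i).eval 0 = 1) {n : ι → ℤ}
    (h : ∀ ρ, ∑ i, n i * (rootMultiplicity ρ (P i) : ℤ) = 0) :
    ∏ i, P i ^ (n i).toNat = ∏ i, P i ^ (-n i).toNat := by
  have hne : ∀ i, P i ≠ 0 := by
    intro i h0
    have := hP i
    rw [h0, eval_zero] at this
    exact zero_ne_one this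
  have h1 : ∀ a : ι → ℕ, (∏ i, P i ^ a i).eval 0 = 1 := by
    intro a
    rw [eval_prod]
    refine Finset.prod_eq_one fun i _ => ?_
    rw [eval_pow, hP, one_pow]
  refine eq_of_roots ?_ ((h1 _).trans (h1 _).symm) (by rw [h1]; exact one_ne_zero)
  ext ρ
  rw [count_prod hne, count_prod hne]
  have h2 := h ρ
  have h3 : ∀ i, n i = ((n i).toNat : ℤ) - ((-n i).toNat : ℤ) := fun i => (Int.toNat_sub_toNat_neg (n i)).symm
  have h4 : ∑ i, n i * (rootMultiplicity ρ (P i) : ℤ) =
      (∑ i, ((n i).toNat : ℤ) * (rootMultiplicity ρ (P i) : ℤ)) -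
        ∑ i, ((-n i).toNat : ℤ) * (rootMultiplicity ρ (P i) : ℤ) := by
    rw [← Finset.sum_sub_distrib]
    refine Finset.sum_congr rfl fun i _ => ?_
    conv_lhs => rw [h3 i]
    ring
  rw [h4, sub_eq_zero] at h2
  exact_mod_cast h2

omit [DecidableEq ι] in
/-- sums over the roots -/
lemma sum_roots {P : ι → ℂ[X]} (hP : ∀ i, P i ≠ 0) {n : ι → ℤ}
    (h : ∏ i, P i ^ (n i).toNat = ∏ i, P i ^ (-n i).toNat) (f : ℂ → ℂ) :
    ∑ i, (n i : ℂ) * ((P i).roots.map f).sum = 0 := by
  have h1 : ∀ a : ι → ℕ, ((∏ i, P i ^ a i).roots.map f).sum = ∑ i, (a i : ℂ) * ((P i).roots.map f).sum := by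
    intro a
    rw [roots_prod _ _ (Finset.prod_ne_zero_iff.2 fun i _ => pow_ne_zero _ (hP i)), Multiset.map_bind,
      Multiset.sum_bind]
    refine Finset.sum_congr rfl fun i _ => ?_
    rw [roots_pow, Multiset.map_nsmul, Multiset.sum_nsmul, nsmul_eq_mul]
  have h2 := h1 fun i => (n i).toNat
  rw [h, h1] at h2
  have h3 : ∀ i, (n i : ℂ) = ((n i).toNat : ℂ) - ((-n i).toNat : ℂ) := by
    intro i
    have := congrArg (fun z : ℤ => (z : ℂ)) (Int.toNat_sub_toNat_neg (n i))
    push_cast at this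
    exact this.symm
  have h4 : ∑ i, (n i : ℂ) * ((P i).roots.map f).sum =
      (∑ i, ((n i).toNat : ℂ) * ((P i).roots.map f).sum) - ∑ i, ((-n i).toNat : ℂ) * ((P i).roots.map f).sum := by
    rw [← Finset.sum_sub_distrib]
    refine Finset.sum_congr rfl fun i _ => ?_
    conv_lhs => rw [h3 i]
    ring
  rw [h4, h2, sub_self]

/-- the roots of `P(y X)` -/
lemma roots_scale (P : ℂ[X]) {y : ℂ} (hy : y ≠ 0) : (P.comp (C y * X)).roots = P.roots.map fun a => a / y := by
  have hf : P = C P.leadingCoeff * (P.roots.map fun a => X - C a).prod := by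
    refine (C_leadingCoeff_mul_prod_multiset_X_sub_C ?_).symm
    exact (splits_iff_card_roots.1 (IsAlgClosed.splits P))
  rcases eq_or_ne P 0 with h0 | h0
  · rw [h0]
    simp
  have h1 : P.comp (C y * X) = C (P.leadingCoeff * y ^ P.roots.card) *
      ((P.roots.map fun a => a / y).map fun a => X - C a).prod := by
    conv_lhs => rw [hf]
    rw [mul_comp, C_comp, multiset_prod_comp, Multiset.map_map, Multiset.map_map, C_mul, mul_assoc]
    congr 1
    have h2 : (P.roots.map ((fun q : ℂ[X] => q.comp (C y * X)) ∘ fun a => X - C a)) =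
        P.roots.map fun a => C y * (X - C (a / y)) := by
      refine Multiset.map_congr rfl fun a _ => ?_
      simp only [Function.comp_apply, sub_comp, X_comp, C_comp]
      rw [mul_sub, ← C_mul, mul_div_cancel₀ _ hy]
    rw [h2, Multiset.prod_map_mul, Multiset.map_const', Multiset.prod_replicate, C_pow]
    rfl
  rw [h1, roots_C_mul _ (mul_ne_zero (leadingCoeff_ne_zero.2 h0) (pow_ne_zero _ hy)),
    roots_multiset_prod_X_sub_C]

/-- one of the first power sums is not zero -/
lemma psum_ne {B : Multiset ℂ} (h0 : ∀ b ∈ B, b ≠ 0) (hB : B ≠ 0) :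
    ∃ k : ℕ, 1 ≤ k ∧ k ≤ B.card ∧ (B.map fun b => b ^ k).sum ≠ 0 := by
  classical
  obtain ⟨β, hβ⟩ := Multiset.exists_mem_of_ne_zero hB
  by_contra hcon
  push Not at hcon
  set h : ℂ[X] := X * ∏ b ∈ B.toFinset.erase β, (X - C b) with hh
  have hdeg : h.natDegree ≤ B.card := by
    rw [hh, natDegree_X_mul (Finset.prod_ne_zero_iff.2 fun b _ => X_sub_C_ne_zero b),
      natDegree_prod_of_monic _ _ fun b _ => monic_X_sub_C b]
    simp only [natDegree_X_sub_C, Finset.sum_const, smul_eq_mul, mul_one]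
    have h1 := Finset.card_erase_add_one (Multiset.mem_toFinset.2 hβ)
    have h2 := Multiset.toFinset_card_le B
    omega
  have hc0 : h.coeff 0 = 0 := by rw [hh, coeff_X_mul_zero]
  -- the sum of the values
  have hs1 : (B.map fun b => h.eval b).sum = 0 := by
    have e1 : ∀ b : ℂ, h.eval b = ∑ k ∈ Finset.range (B.card + 1), h.coeff k * b ^ k := by
      intro b
      exact eval_eq_sum_range' (by omega) b
    simp only [e1]
    rw [Multiset.sum_map_sum]
    refine Finset.sum_eq_zero fun k hk => ?_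
    rw [Multiset.sum_map_mul_left]
    rcases Nat.eq_zero_or_pos k with rfl | hk0
    · rw [hc0, zero_mul]
    · rw [hcon k hk0 (by rw [Finset.mem_range] at hk; omega), mul_zero]
  rw [Finset.sum_multiset_map_count, Finset.sum_eq_single β] at hs1
  · rw [nsmul_eq_mul] at hs1
    rcases mul_eq_zero.1 hs1 with h1 | h1
    · have h2 : B.count β ≠ 0 := Multiset.count_ne_zero.2 hβ
      exact h2 (by exact_mod_cast h1)
    · rw [hh, eval_mul, eval_X, eval_prod] at h1
      rcases mul_eq_zero.1 h1 with h2 | h2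
      · exact h0 β hβ h2
      · obtain ⟨b, hb, hb1⟩ := Finset.prod_eq_zero_iff.1 h2
        rw [eval_sub, eval_X, eval_C, sub_eq_zero] at hb1
        exact (Finset.ne_of_mem_erase hb) hb1.symm
  · intro b hb hbβ
    have h1 : h.eval b = 0 := by
      rw [hh, eval_mul, eval_prod]
      have : ∏ j ∈ B.toFinset.erase β, (X - C j).eval b = 0 :=
        Finset.prod_eq_zero (Finset.mem_erase.2 ⟨hbβ, hb⟩) (by rw [eval_sub, eval_X, eval_C, sub_self])
      rw [this, mul_zero]
    rw [h1, smul_zero]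
  · intro h1
    exact absurd (Multiset.mem_toFinset.2 hβ) h1

end alg

end Run7.h401.SM
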