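import Mathlib
import Pool.Agent.H341R2.PrimeSums

/-!
Generalised Dirichlet polynomials do not vanish at almost all primes.
-/

set_option autoImplicit false

open Filter Topology
open Pool.Agent.H341R2 (lam lam_tendsto primeSum_bounded norm_prime_cpow summable_prime_rpow)

namespace Run7.h401.SM

/-- the value of a generalised Dirichlet polynomial at a prime -/
noncomputable def ev (p : Nat.Primes) : AddMonoidAlgebra ℝ ℂ →ₐ[ℝ] ℂ :=
  AddMonoidAlgebra.lift ℝ ℂ ℂ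
    { toFun := fun μ => ((p : ℕ) : ℂ) ^ (-(Multiplicative.toAdd μ))
      map_one' := by simp
      map_mul' := fun a b => by
        have hp : ((p : ℕ) : ℂ) ≠ 0 := by exact_mod_cast p.2.ne_zero
        rw [toAdd_mul, neg_add, Complex.cpow_add _ _ hp] }

lemma ev_single (p : Nat.Primes) (μ : ℂ) (c : ℝ) :
    ev p (AddMonoidAlgebra.single μ c) = (c : ℂ) * ((p : ℕ) : ℂ) ^ (-μ) := by
  unfold ev
  rw [AddMonoidAlgebra.lift_single]
  simp

lemma ev_apply (p : Nat.Primes) (F : AddMonoidAlgebra ℝ ℂ) :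
    ev p F = ∑ μ ∈ F.coeff.support, (F.coeff μ : ℂ) * ((p : ℕ) : ℂ) ^ (-μ) := by
  unfold ev
  rw [AddMonoidAlgebra.lift_apply]
  simp [Finsupp.sum]

lemma summable_Pz {s : ℂ} (hs : 1 < s.re) : Summable fun p : Nat.Primes => ((p : ℕ) : ℂ) ^ (-s) := by
  refine Summable.of_norm_bounded (summable_prime_rpow (r := -s.re) (by linarith)) fun p => ?_
  rw [norm_prime_cpow]

/-- the sums over the primes -/
noncomputable def Pz (s : ℂ) : ℂ := ∑' p : Nat.Primes, ((p : ℕ) : ℂ) ^ (-s)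

lemma Pz_bdd {ν : ℂ} (h0 : ν ≠ 0) (hre : 0 ≤ ν.re) : ∃ C : ℝ, ∀ᶠ ε : ℝ in 𝓝[>] 0, |(Pz (1 + ε + ν)).re| ≤ C := by
  rcases hre.eq_or_lt with h | h
  · have him : ν.im ≠ 0 := by
      intro h1
      exact h0 (Complex.ext h.symm h1)
    obtain ⟨C, hC⟩ := primeSum_bounded (1 : DirichletCharacter ℂ 1) ν.im (Or.inr him)
    refine ⟨C, ?_⟩
    filter_upwards [hC] with ε hε
    have hν : ν = ν.im * Complex.I := by
      conv_lhs => rw [← Complex.re_add_im ν, ← h]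
      simp
    have h2 : Pz (1 + ε + ν) = ∑' p : Nat.Primes, (1 : DirichletCharacter ℂ 1) p *
        ((p : ℕ) : ℂ) ^ (-(1 + ε + ν.im * Complex.I)) := by
      unfold Pz
      refine tsum_congr fun p => ?_
      rw [MulChar.one_apply (isUnit_of_subsingleton _), one_mul, ← hν]
    rw [h2]
    exact hε
  · refine ⟨∑' p : Nat.Primes, (p : ℝ) ^ (-(1 + ν.re)), ?_⟩
    filter_upwards [self_mem_nhdsWithin] with ε hε
    have hε0 : (0:ℝ) < ε := hε
    have hsum : Summable fun p : Nat.Primes => (p : ℝ) ^ (-(1 + ν.re)) := summable_prime_rpow (by linarith)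
    have hre : ((1:ℂ) + ε + ν).re = 1 + ε + ν.re := by simp
    have h1 : ∀ p : Nat.Primes, ‖((p : ℕ) : ℂ) ^ (-((1:ℂ) + ε + ν))‖ ≤ (p : ℝ) ^ (-(1 + ν.re)) := by
      intro p
      rw [norm_prime_cpow, hre]
      have hp : (1:ℝ) ≤ (p : ℝ) := by exact_mod_cast p.2.one_lt.le
      exact Real.rpow_le_rpow_of_exponent_le hp (by linarith)
    refine (Complex.abs_re_le_norm _).trans ?_
    unfold Pz
    exact tsum_of_norm_bounded hsum.hasSum h1

/-- **non-vanishing at infinitely many primes** -/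
theorem ev_ne {F : AddMonoidAlgebra ℝ ℂ} (hF : F ≠ 0) : {p : Nat.Primes | ev p F ≠ 0}.Infinite := by
  intro hfin
  classical
  have hsupp : F.coeff.support.Nonempty := Finsupp.support_nonempty_iff.2 (mt AddMonoidAlgebra.coeff_eq_zero.1 hF)
  obtain ⟨μ₀, hμ₀, hmin⟩ := Finset.exists_min_image F.coeff.support Complex.re hsupp
  have hF0 : F.coeff μ₀ ≠ 0 := Finsupp.mem_support_iff.1 hμ₀
  set c : Nat.Primes → ℂ := fun p => ∑ μ ∈ F.coeff.support, (F.coeff μ : ℂ) * ((p : ℕ) : ℂ) ^ (-(μ - μ₀)) with hc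
  have hp0 : ∀ p : Nat.Primes, ((p : ℕ) : ℂ) ≠ 0 := fun p => by exact_mod_cast p.2.ne_zero
  have hcz : ∀ p : Nat.Primes, p ∉ hfin.toFinset → c p = 0 := by
    intro p hp
    have h1 : ev p F = 0 := by
      by_contra hcon
      exact hp (hfin.mem_toFinset.2 hcon)
    have h2 : c p = ((p : ℕ) : ℂ) ^ μ₀ * ev p F := by
      rw [ev_apply, Finset.mul_sum]
      refine Finset.sum_congr rfl fun μ _ => ?_
      have e1 : -(μ - μ₀) = μ₀ + -μ := by ring
      rw [e1, Complex.cpow_add _ _ (hp0 p)]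
      ring
    rw [h2, h1, mul_zero]
  -- the other terms
  have hb : ∀ μ : ℂ, ∃ C : ℝ, μ ∈ F.coeff.support.erase μ₀ → ∀ᶠ ε : ℝ in 𝓝[>] 0, |(Pz (1 + ε + (μ - μ₀))).re| ≤ C := by
    intro μ
    by_cases hμ : μ ∈ F.coeff.support.erase μ₀
    · have h1 : μ - μ₀ ≠ 0 := sub_ne_zero.2 (Finset.ne_of_mem_erase hμ)
      have h2 : 0 ≤ (μ - μ₀).re := by
        rw [Complex.sub_re, sub_nonneg]
        exact hmin μ (Finset.mem_of_mem_erase hμ)
      obtain ⟨C, hC⟩ := Pz_bdd h1 h2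
      exact ⟨C, fun _ => hC⟩
    · exact ⟨0, fun h => absurd h hμ⟩
  choose C hC using hb
  have hall : ∀ᶠ ε : ℝ in 𝓝[>] 0, ∀ μ ∈ F.coeff.support.erase μ₀, |(Pz (1 + ε + (μ - μ₀))).re| ≤ C μ :=
    (Finset.eventually_all _).2 fun μ hμ => hC μ hμ
  set B : ℝ := (∑ p ∈ hfin.toFinset, ‖c p‖) + ∑ μ ∈ F.coeff.support.erase μ₀, |F.coeff μ| * C μ with hB
  have hlarge : ∀ᶠ ε : ℝ in 𝓝[>] 0, (B + 1) / |F.coeff μ₀| < lam ε := lam_tendsto.eventually_gt_atTop _
  obtain ⟨ε, hε1, hε2, hε3⟩ := (hall.and (hlarge.and self_mem_nhdsWithin)).exists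
  have hε0 : (0:ℝ) < ε := hε3
  -- the sum
  have hre : ∀ μ ∈ F.coeff.support, 1 < ((1:ℂ) + ε + (μ - μ₀)).re := by
    intro μ hμ
    have := hmin μ hμ
    simp only [Complex.add_re, Complex.one_re, Complex.ofReal_re, Complex.sub_re]
    linarith
  have hT1 : ∑' p : Nat.Primes, c p * ((p : ℕ) : ℂ) ^ (-((1:ℂ) + ε)) =
      ∑ μ ∈ F.coeff.support, (F.coeff μ : ℂ) * Pz (1 + ε + (μ - μ₀)) := by
    have h1 : ∀ p : Nat.Primes, c p * ((p : ℕ) : ℂ) ^ (-((1:ℂ) + ε)) =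
        ∑ μ ∈ F.coeff.support, (F.coeff μ : ℂ) * ((p : ℕ) : ℂ) ^ (-((1:ℂ) + ε + (μ - μ₀))) := by
      intro p
      rw [hc]
      simp only
      rw [Finset.sum_mul]
      refine Finset.sum_congr rfl fun μ _ => ?_
      have e1 : -((1:ℂ) + ε + (μ - μ₀)) = -(μ - μ₀) + -((1:ℂ) + ε) := by ring
      rw [e1, Complex.cpow_add _ _ (hp0 p)]
      ring
    simp only [h1]
    rw [Summable.tsum_finsetSum fun μ hμ => (summable_Pz (hre μ hμ)).mul_left _]
    refine Finset.sum_congr rfl fun μ _ => ?_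
    rw [tsum_mul_left]
    rfl
  have hT2 : ‖∑' p : Nat.Primes, c p * ((p : ℕ) : ℂ) ^ (-((1:ℂ) + ε))‖ ≤ ∑ p ∈ hfin.toFinset, ‖c p‖ := by
    rw [tsum_eq_sum (s := hfin.toFinset) fun p hp => by rw [hcz p hp, zero_mul]]
    refine (norm_sum_le _ _).trans (Finset.sum_le_sum fun p _ => ?_)
    rw [norm_mul, norm_prime_cpow]
    refine mul_le_of_le_one_right (norm_nonneg _) ?_
    have hp : (1:ℝ) ≤ (p : ℝ) := by exact_mod_cast p.2.one_lt.le
    refine Real.rpow_le_one_of_one_le_of_nonpos hp ?_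
    simp only [Complex.add_re, Complex.one_re, Complex.ofReal_re]
    linarith
  have hlam : (Pz (1 + ε + (μ₀ - μ₀))).re = lam ε := by
    rw [sub_self, add_zero]
    unfold Pz lam
    rw [← Complex.ofReal_re (∑' p : Nat.Primes, (p : ℝ) ^ (-(1 + ε))), Complex.ofReal_tsum]
    congr 1
    refine tsum_congr fun p => ?_
    rw [Complex.ofReal_cpow (by positivity)]
    push_cast
    rfl
  have hT3 := (Complex.abs_re_le_norm _).trans hT2
  rw [hT1, Complex.re_sum] at hT3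
  simp only [Complex.re_ofReal_mul] at hT3
  rw [← Finset.add_sum_erase _ _ hμ₀, hlam] at hT3
  have hrest : |∑ μ ∈ F.coeff.support.erase μ₀, F.coeff μ * (Pz (1 + ε + (μ - μ₀))).re| ≤
      ∑ μ ∈ F.coeff.support.erase μ₀, |F.coeff μ| * C μ := by
    refine (Finset.abs_sum_le_sum_abs _ _).trans (Finset.sum_le_sum fun μ hμ => ?_)
    rw [abs_mul]
    exact mul_le_mul_of_nonneg_left (hε1 μ hμ) (abs_nonneg _)
  have hlam0 : 0 ≤ lam ε := tsum_nonneg fun p => by positivity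
  have h1 : |F.coeff μ₀ * lam ε| ≤ B := by
    have h2 := abs_sub_abs_le_abs_sub (F.coeff μ₀ * lam ε) (-(∑ μ ∈ F.coeff.support.erase μ₀, F.coeff μ * (Pz (1 + ε + (μ - μ₀))).re))
    rw [abs_neg, sub_neg_eq_add] at h2
    rw [hB]
    linarith
  rw [abs_mul, abs_of_nonneg hlam0] at h1
  have hpos : 0 < |F.coeff μ₀| := abs_pos.2 hF0
  rw [div_lt_iff₀ hpos] at hε2
  linarith

end Run7.h401.SM
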