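import Mathlib
import Pool.Agent.Run7.h401.SD.Ind
import Pool.Agent.Run7.h401.SM.E
import Pool.Agent.Run7.h401.SM.F

/-!
Independence of the Euler factors of several curves, or of one curve at several points.
-/

set_option autoImplicit false

open Filter Topology NumberField IsDedekindDomain Polynomial
open scoped ComplexConjugate
open Pool.Agent.H341R2.EC

namespace Run7.h401.SM
open Run7.h401.SD

variable {ι : Type} [Fintype ι] [DecidableEq ι] {K : ι → Type} [∀ i, Field (K i)] [∀ i, NumberField (K i)]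

/-- the scaled Euler polynomials satisfy no relation at almost all primes -/
def Ind (V : ∀ i, HeightOneSpectrum (𝓞 (K i)) → WeierstrassCurve (𝓞 (K i))) (σ τ : ι → ℝ) : Prop :=
  ∀ n : ι → ℤ, n ≠ 0 → {p : ℕ | p.Prime ∧
    ∏ i, PP V σ τ p i ^ (n i).toNat ≠ ∏ i, PP V σ τ p i ^ (-n i).toNat}.Infinite

omit [Fintype ι] [DecidableEq ι] in
lemma PP_eval0 (V : ∀ i, HeightOneSpectrum (𝓞 (K i)) → WeierstrassCurve (𝓞 (K i))) (σ τ : ι → ℝ) (p : ℕ) (i : ι) :
    (PP V σ τ p i).eval 0 = 1 := by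
  unfold PP Qs
  rw [eval_prod]
  refine Finset.prod_eq_one fun v _ => ?_
  rw [sh_eval, mul_zero, ← coeff_zero_eq_eval_zero, Qv_coeff]

omit [Fintype ι] [DecidableEq ι] in
lemma PP_ne (V : ∀ i, HeightOneSpectrum (𝓞 (K i)) → WeierstrassCurve (𝓞 (K i))) (σ τ : ι → ℝ) (p : ℕ) (i : ι) :
    PP V σ τ p i ≠ 0 := by
  intro h
  have := PP_eval0 V σ τ p i
  rw [h, eval_zero] at this
  exact zero_ne_one this

/-- **from integer exponents to complex directions** -/
theorem dir_of_ind {V : ∀ i, HeightOneSpectrum (𝓞 (K i)) → WeierstrassCurve (𝓞 (K i))} {σ τ : ι → ℝ}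
    (h : Ind V σ τ) (u : EE ι) (hu : u ≠ 0) : {p : ℕ | p.Prime ∧ NN V σ τ p u ≠ 0}.Infinite := by
  have hc : (fun i => conj (u i)) ≠ (0 : ι → ℂ) := by
    intro h0
    apply hu
    ext i
    have := congrFun h0 i
    simpa using this
  obtain ⟨n, hn, hn'⟩ := int_vec hc
  refine (h n hn).mono fun p hp => ⟨hp.1, fun h0 => hp.2 ?_⟩
  exact prod_rel (PP_eval0 V σ τ p) fun ρ => hn' _ (mult_rel (PP_ne V σ τ p) h0 ρ)

/-- the number `p ^ (-(3/2 + σ + iτ))` -/
lemma ye_eq {p : ℕ} (hp : p.Prime) (σ τ : ℝ) :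
    yy p σ * e (τ * fr p) = (p : ℂ) ^ (-((3:ℂ) / 2 + σ + τ * Complex.I)) := by
  have hp0 : (p : ℂ) ≠ 0 := by exact_mod_cast hp.ne_zero
  have e1 : -((3:ℂ) / 2 + σ + τ * Complex.I) = -((3:ℂ) / 2 + σ) + -(τ * Complex.I) := by ring
  rw [e1, Complex.cpow_add _ _ hp0]
  unfold yy e fr
  congr 1
  rw [Complex.cpow_def_of_ne_zero hp0, ← Complex.natCast_log]
  congr 1
  have hpi : (Real.pi : ℂ) ≠ 0 := by exact_mod_cast Real.pi_ne_zero
  push_cast
  field_simp

omit [Fintype ι] [DecidableEq ι] in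
lemma PP_eq (V : ∀ i, HeightOneSpectrum (𝓞 (K i)) → WeierstrassCurve (𝓞 (K i))) (σ τ : ι → ℝ) {p : ℕ} (hp : p.Prime)
    (i : ι) : PP V σ τ p i = (EP (V i) p).comp (C ((p : ℂ) ^ (-((3:ℂ) / 2 + σ i + τ i * Complex.I))) * X) := by
  rw [← ye_eq hp]
  exact PB_eq (V i) (σ i) (τ i) hp

omit [DecidableEq ι] in
/-- **the same point** -/
theorem ind_same {V : ∀ i, HeightOneSpectrum (𝓞 (K i)) → WeierstrassCurve (𝓞 (K i))} (σ τ : ℝ)
    (h : ∀ n : ι → ℤ, n ≠ 0 → {p : ℕ | p.Prime ∧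
      ∏ i, EP (V i) p ^ (n i).toNat ≠ ∏ i, EP (V i) p ^ (-n i).toNat}.Infinite) :
    Ind V (fun _ => σ) (fun _ => τ) := by
  intro n hn
  refine (h n hn).mono fun p hp => ⟨hp.1, fun heq => hp.2 ?_⟩
  set y : ℂ := (p : ℂ) ^ (-((3:ℂ) / 2 + σ + τ * Complex.I)) with hy
  have hy0 : y ≠ 0 := by
    have : (p : ℂ) ≠ 0 := by exact_mod_cast hp.1.ne_zero
    rw [hy, Ne, Complex.cpow_eq_zero_iff]
    tauto
  have h1 : ∀ i, PP V (fun _ => σ) (fun _ => τ) p i = (EP (V i) p).comp (C y * X) := fun i => PP_eq V _ _ hp.1 i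
  simp only [h1] at heq
  have h2 := congrArg (fun R : ℂ[X] => R.comp (C y⁻¹ * X)) heq
  simp only [prod_comp, pow_comp, comp_assoc] at h2
  have h4 : (C y * X : ℂ[X]).comp (C y⁻¹ * X) = X := by
    simp only [mul_comp, C_comp, X_comp]
    rw [← mul_assoc, ← C_mul, mul_inv_cancel₀ hy0, C_1, one_mul]
  simp only [h4, comp_X] at h2
  exact h2

omit [DecidableEq ι] in
/-- a relation at `p` gives the vanishing of one of the first generalised Dirichlet polynomials -/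
lemma rel_vanish {P : ℂ[X]} (hP0 : P.eval 0 ≠ 0) (hdeg : 1 ≤ P.natDegree) {y : ι → ℂ} (hy : ∀ i, y i ≠ 0) {d : ι → ℕ}
    {n : ι → ℤ} (h : ∏ i, ((P ^ d i).comp (C (y i) * X)) ^ (n i).toNat =
      ∏ i, ((P ^ d i).comp (C (y i) * X)) ^ (-n i).toNat) :
    ∃ k : ℕ, 1 ≤ k ∧ k ≤ P.natDegree ∧ ∑ i, (n i : ℂ) * d i * y i ^ k = 0 := by
  have hPne : P ≠ 0 := by
    rintro rfl
    simp at hP0
  have hroots : P.roots.card = P.natDegree := splits_iff_card_roots.1 (IsAlgClosed.splits P)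
  have hr0 : ∀ a ∈ P.roots, a ≠ 0 := by
    rintro a ha rfl
    exact hP0 (isRoot_of_mem_roots ha)
  obtain ⟨k, hk1, hk2, hk3⟩ := psum_ne (B := P.roots.map fun a => a⁻¹)
    (fun b hb => by
      obtain ⟨a, ha, rfl⟩ := Multiset.mem_map.1 hb
      exact inv_ne_zero (hr0 a ha))
    (by
      intro h0
      have := congrArg Multiset.card h0
      rw [Multiset.card_map, hroots, Multiset.card_zero] at this
      omega)
  rw [Multiset.card_map, hroots] at hk2
  refine ⟨k, hk1, hk2, ?_⟩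
  have hne : ∀ i, (P ^ d i).comp (C (y i) * X) ≠ 0 := by
    intro i h0
    have h1 := congrArg (fun R : ℂ[X] => R.eval 0) h0
    simp only [eval_comp, eval_mul, eval_C, eval_X, mul_zero, eval_pow, eval_zero] at h1
    exact pow_ne_zero (d i) hP0 h1
  have h1 := sum_roots hne h (fun r => r⁻¹ ^ k)
  have h2 : ∀ i, (((P ^ d i).comp (C (y i) * X)).roots.map fun r => r⁻¹ ^ k).sum =
      d i * y i ^ k * ((P.roots.map fun a => a⁻¹).map fun b => b ^ k).sum := by
    intro i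
    rw [roots_scale _ (hy i), roots_pow, Multiset.map_nsmul, Multiset.map_nsmul, Multiset.sum_nsmul, nsmul_eq_mul,
      mul_assoc, Multiset.map_map, Multiset.map_map]
    congr 1
    rw [← Multiset.sum_map_mul_left]
    congr 1
    refine Multiset.map_congr rfl fun a _ => ?_
    simp only [Function.comp_apply]
    rw [inv_div, div_pow, div_eq_mul_inv, inv_pow]
  simp only [h2] at h1
  have h3 : ∑ i, (n i : ℂ) * (d i * y i ^ k * ((P.roots.map fun a => a⁻¹).map fun b => b ^ k).sum) =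
      (∑ i, (n i : ℂ) * d i * y i ^ k) * ((P.roots.map fun a => a⁻¹).map fun b => b ^ k).sum := by
    rw [Finset.sum_mul]
    refine Finset.sum_congr rfl fun i _ => ?_
    ring
  rw [h3] at h1
  exact (mul_eq_zero.1 h1).resolve_right hk3

/-- the generalised Dirichlet polynomial of the exponent `k` -/
noncomputable def gd (s : ι → ℂ) (c : ι → ℝ) (k : ℕ) : AddMonoidAlgebra ℝ ℂ :=
  ∑ i, AddMonoidAlgebra.single (k * s i) (c i)

omit [DecidableEq ι] in
lemma gd_ne {s : ι → ℂ} (hs : Function.Injective s) {c : ι → ℝ} (hc : c ≠ 0) {k : ℕ} (hk : 1 ≤ k) : gd s c k ≠ 0 := by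
  classical
  obtain ⟨i₀, hi₀⟩ := Function.ne_iff.1 hc
  intro h
  have h1 := congrArg (fun F : AddMonoidAlgebra ℝ ℂ => F.coeff (k * s i₀)) h
  unfold gd at h1
  simp only [AddMonoidAlgebra.coeff_sum, Finsupp.coe_finsetSum, Finset.sum_apply, AddMonoidAlgebra.coeff_single,
    AddMonoidAlgebra.coeff_zero, Finsupp.coe_zero, Pi.zero_apply] at h1
  rw [Finset.sum_eq_single i₀] at h1
  · rw [Finsupp.single_eq_same] at h1
    exact hi₀ h1
  · intro i _ hi
    rw [Finsupp.single_apply, if_neg]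
    intro h2
    have h3 : (k : ℂ) ≠ 0 := by
      have : k ≠ 0 := by omega
      exact_mod_cast this
    exact hi (hs (mul_left_cancel₀ h3 h2))
  · intro h2
    exact absurd (Finset.mem_univ _) h2

omit [DecidableEq ι] in
lemma ev_gd (s : ι → ℂ) (c : ι → ℝ) (k : ℕ) (p : Nat.Primes) :
    ev p (gd s c k) = ∑ i, (c i : ℂ) * (((p : ℕ) : ℂ) ^ (-s i)) ^ k := by
  unfold gd
  rw [map_sum]
  refine Finset.sum_congr rfl fun i _ => ?_
  rw [ev_single, ← Complex.cpow_nat_mul]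
  congr 2
  ring

omit [DecidableEq ι] in
/-- the product of the first of them is not zero -/
lemma prod_gd_ne {s : ι → ℂ} (hs : Function.Injective s) {c : ι → ℝ} (hc : c ≠ 0) (D : ℕ) :
    ∏ k ∈ Finset.Icc 1 D, gd s c k ≠ 0 :=
  Finset.prod_ne_zero_iff.2 fun _ hk => gd_ne hs hc (Finset.mem_Icc.1 hk).1

end Run7.h401.SM
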