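import Mathlib
import Pool.Agent.Run7.h401.SM.G

/-!
One curve at several points: independence.
-/

set_option autoImplicit false

open Filter Topology NumberField IsDedekindDomain Polynomial
open scoped ComplexConjugate
open Pool.Agent.H341R2.EC

namespace Run7.h401.SM
open Run7.h401.SD

variable {ι : Type} [Fintype ι] {K : ι → Type} [∀ i, Field (K i)] [∀ i, NumberField (K i)]

/-- generalised Dirichlet polynomials do not vanish at almost all elements of the set `S` -/
def Rich (S : Set Nat.Primes) : Prop := ∀ F : AddMonoidAlgebra ℝ ℂ, F ≠ 0 → {p : Nat.Primes | p ∈ S ∧ ev p F ≠ 0}.Infinite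

/-- **independence from a common polynomial** -/
theorem ind_of_common {V : ∀ i, HeightOneSpectrum (𝓞 (K i)) → WeierstrassCurve (𝓞 (K i))} {σ τ : ι → ℝ}
    (hs : ∀ i j, σ i = σ j → τ i = τ j → i = j) (d : ι → ℕ) (hd : ∀ i, 1 ≤ d i) (D : ℕ) {S : Set Nat.Primes}
    (hS : Rich S) (P : Nat.Primes → ℂ[X]) (hP0 : ∀ p ∈ S, (P p).eval 0 ≠ 0) (hP1 : ∀ p ∈ S, 1 ≤ (P p).natDegree)
    (hPD : ∀ p ∈ S, (P p).natDegree ≤ D) (hE : ∀ p ∈ S, ∀ i, EP (V i) (p : ℕ) = P p ^ d i) : Ind V σ τ := by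
  classical
  intro n hn
  set s : ι → ℂ := fun i => (3:ℂ) / 2 + σ i + τ i * Complex.I with hsd
  have hsinj : Function.Injective s := by
    intro i j hij
    rw [hsd] at hij
    simp only at hij
    have h1 := congrArg Complex.re hij
    have h2 := congrArg Complex.im hij
    have e1 : ∀ i, ((3:ℂ) / 2 + σ i + τ i * Complex.I).re = 3 / 2 + σ i := by
      intro i
      have : ((3:ℂ) / 2 + σ i + τ i * Complex.I) = ((3 / 2 + σ i : ℝ) : ℂ) + (τ i : ℂ) * Complex.I := by push_cast; ring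
      rw [this]
      simp
    have e2 : ∀ i, ((3:ℂ) / 2 + σ i + τ i * Complex.I).im = τ i := by
      intro i
      have : ((3:ℂ) / 2 + σ i + τ i * Complex.I) = ((3 / 2 + σ i : ℝ) : ℂ) + (τ i : ℂ) * Complex.I := by push_cast; ring
      rw [this]
      simp
    rw [e1, e1] at h1
    rw [e2, e2] at h2
    exact hs i j (by linarith) h2
  set c : ι → ℝ := fun i => (n i : ℝ) * d i with hc
  have hc0 : c ≠ 0 := by
    obtain ⟨i, hi⟩ := Function.ne_iff.1 hn
    intro h0
    have h1 := congrFun h0 i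
    rw [hc] at h1
    simp only [Pi.zero_apply] at h1
    rcases mul_eq_zero.1 h1 with h2 | h2
    · exact hi (by exact_mod_cast h2)
    · have h3 := hd i
      have h4 : d i = 0 := by exact_mod_cast h2
      omega
  have hF := hS _ (prod_gd_ne hsinj hc0 D)
  have himg := hF.image (f := fun p : Nat.Primes => (p : ℕ)) (fun a _ b _ h => Subtype.ext h)
  refine himg.mono ?_
  rintro q ⟨p, ⟨hpS, hev⟩, rfl⟩
  refine ⟨p.2, fun heq => hev ?_⟩
  have h1 : ∀ i, PP V σ τ p i = ((P p) ^ d i).comp (C (((p : ℕ) : ℂ) ^ (-s i)) * X) := by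
    intro i
    rw [PP_eq V σ τ p.2, hE p hpS i]
  simp only [h1] at heq
  have hy : ∀ i, ((p : ℕ) : ℂ) ^ (-s i) ≠ 0 := by
    intro i
    have : ((p : ℕ) : ℂ) ≠ 0 := by exact_mod_cast p.2.ne_zero
    rw [Ne, Complex.cpow_eq_zero_iff]
    tauto
  obtain ⟨k, hk1, hk2, hk3⟩ := rel_vanish (hP0 p hpS) (hP1 p hpS) hy heq
  rw [map_prod]
  refine Finset.prod_eq_zero (Finset.mem_Icc.2 ⟨hk1, hk2.trans (hPD p hpS)⟩) ?_
  rw [ev_gd, ← hk3]
  refine Finset.sum_congr rfl fun i _ => ?_
  rw [hc]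
  push_cast
  ring

lemma rich_of_finite {S : Set Nat.Primes} (h : Sᶜ.Finite) : Rich S := by
  intro F hF
  refine ((ev_ne hF).sdiff h).mono fun p hp => ⟨?_, hp.1⟩
  by_contra hcon
  exact hp.2 hcon

/-- **one curve, different points** -/
theorem ind_points {K : Type} [Field K] [NumberField K] {V : HeightOneSpectrum (𝓞 K) → WeierstrassCurve (𝓞 K)}
    (h : {p : ℕ | p.Prime ∧ ¬ AG V p}.Finite) {σ τ : ι → ℝ} (hs : ∀ i j, σ i = σ j → τ i = τ j → i = j) :
    Ind (K := fun _ : ι => K) (fun _ => V) σ τ := by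
  have hfin : {p : Nat.Primes | AG V (p : ℕ)}ᶜ.Finite := by
    refine (h.preimage (f := fun p : Nat.Primes => (p : ℕ)) ?_).subset ?_
    · exact fun a _ b _ h => Subtype.ext h
    · intro p hp
      exact ⟨p.2, hp⟩
  refine ind_of_common (S := {p : Nat.Primes | AG V (p : ℕ)}) hs (fun _ => 1) (fun _ => le_rfl)
    (2 * Module.finrank ℚ K) (rich_of_finite hfin) (fun p => EP V (p : ℕ)) ?_ ?_ ?_ ?_
  · intro p _ h0
    unfold EP at h0
    rw [eval_prod] at h0
    obtain ⟨v, -, hv⟩ := Finset.prod_eq_zero_iff.1 h0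
    have hdeg := (Pool.Agent.H921R2.TatePole.nm_eq v).2.1
    unfold Ep at hv
    simp only [eval_add, eval_sub, eval_one, eval_mul, eval_C, eval_pow, eval_X] at hv
    rw [zero_pow (by omega), zero_pow (by omega)] at hv
    simp at hv
  · intro p hp
    rw [(EP_good p.2 hp).1]
    have := sd_pos (K := K) p.2
    omega
  · intro p hp
    rw [(EP_good p.2 hp).1]
    have := sd_le (K := K) p.2
    omega
  · intro p _ i
    rw [pow_one]

end Run7.h401.SM
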