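import Mathlib
import Pool.Agent.H341R2.NF.Abel
import Pool.Agent.Run7.h401.SM.H

/-!
Sets of primes with a natural density are rich.
-/

set_option autoImplicit false

open Filter Topology
open Pool.Agent.H341R2 (lam lam_tendsto primeSum_bounded norm_prime_cpow summable_prime_rpow)
open Pool.Agent.H341R2.Abel (AA abel AA_one)

namespace Run7.h401.SM

open Classical in
/-- the indicator function -/
noncomputable def ind (S : Set Nat.Primes) (n : ℕ) : ℝ := if ∃ h : n.Prime, (⟨n, h⟩ : Nat.Primes) ∈ S then 1 else 0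

lemma ind_coe (S : Set Nat.Primes) (p : Nat.Primes) : ind S (p : ℕ) = open Classical in if p ∈ S then 1 else 0 := by
  classical
  unfold ind
  by_cases h : p ∈ S
  · rw [if_pos ⟨p.2, h⟩, if_pos h]
  · rw [if_neg, if_neg h]
    rintro ⟨_, h2⟩
    exact h h2

lemma ind_abs (S : Set Nat.Primes) (n : ℕ) : |ind S n| ≤ 1 := by
  unfold ind
  split_ifs <;> simp

/-- the sums over the primes of the set -/
noncomputable def Ps (S : Set Nat.Primes) (s : ℂ) : ℂ := ∑' p : Nat.Primes, (ind S (p : ℕ) : ℂ) * ((p : ℕ) : ℂ) ^ (-s)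

lemma summable_Ps (S : Set Nat.Primes) {s : ℂ} (hs : 1 < s.re) :
    Summable fun p : Nat.Primes => (ind S (p : ℕ) : ℂ) * ((p : ℕ) : ℂ) ^ (-s) := by
  refine Summable.of_norm_bounded (summable_prime_rpow (r := -s.re) (by linarith)) fun p => ?_
  rw [norm_mul, norm_prime_cpow, Complex.norm_real, Real.norm_eq_abs]
  exact mul_le_of_le_one_left (by positivity) (ind_abs S p)

lemma AA_sub (S : Set Nat.Primes) (δ : ℝ) (N : ℕ) :
    AA (fun n => ind S n - δ) N = AA (ind S) N - δ * (Nat.primeCounting N : ℝ) := by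
  rw [← AA_one]
  unfold AA
  rw [Finset.sum_sub_distrib, Finset.mul_sum]
  simp

section dens
variable {S : Set Nat.Primes} {δ : ℝ}

/-- the difference to `δ` times the sum over all primes -/
lemma diff_small (hδ : 0 ≤ δ) (h : Tendsto (fun N : ℕ => AA (ind S) N / (Nat.primeCounting N : ℝ)) atTop (𝓝 δ)) (τ : ℝ)
    {η : ℝ} (hη : 0 < η) : ∀ᶠ ε : ℝ in 𝓝[>] 0, ‖Ps S (1 + ε + τ * Complex.I) - δ * Pz (1 + ε + τ * Complex.I)‖ ≤
      η * lam ε := by
  have hr : ∀ n, |ind S n - δ| ≤ 1 + δ := fun n => by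
    refine (abs_sub _ _).trans ?_
    rw [abs_of_nonneg hδ]
    have := ind_abs S n
    linarith
  have hmean : Tendsto (fun N : ℕ => AA (fun n => ind S n - δ) N / (Nat.primeCounting N : ℝ)) atTop (𝓝 0) := by
    have h1 := h.sub_const δ
    rw [sub_self] at h1
    refine h1.congr' ?_
    filter_upwards [eventually_ge_atTop 2] with N hN
    have hp : (Nat.primeCounting N : ℝ) ≠ 0 := by
      have : Nat.primeCounting N ≠ 0 := by
        rw [Ne, Nat.primeCounting_eq_zero_iff]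
        omega
      exact_mod_cast this
    rw [AA_sub, sub_div, mul_div_cancel_right₀ _ hp]
  filter_upwards [abel hr hmean τ hη, self_mem_nhdsWithin] with ε h1 h2
  have hε : (0:ℝ) < ε := h2
  have hre : 1 < ((1:ℂ) + ε + τ * Complex.I).re := by simp [hε]
  have h3 : ∑' p : Nat.Primes, ((ind S (p : ℕ) - δ : ℝ) : ℂ) * ((p : ℕ) : ℂ) ^ (-((1:ℂ) + ε + τ * Complex.I)) =
      Ps S (1 + ε + τ * Complex.I) - δ * Pz (1 + ε + τ * Complex.I) := by
    unfold Ps Pz
    rw [← tsum_mul_left, ← (summable_Ps S hre).tsum_sub ((summable_Pz hre).mul_left _)]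
    refine tsum_congr fun p => ?_
    push_cast
    ring
  rw [← h3]
  exact h1

lemma Ps_small (hδ : 0 ≤ δ) (h : Tendsto (fun N : ℕ => AA (ind S) N / (Nat.primeCounting N : ℝ)) atTop (𝓝 δ)) {ν : ℂ}
    (h0 : ν ≠ 0) (hre : 0 ≤ ν.re) {η : ℝ} (hη : 0 < η) : ∀ᶠ ε : ℝ in 𝓝[>] 0, |(Ps S (1 + ε + ν)).re| ≤ η * lam ε := by
  rcases hre.eq_or_lt with h1 | h1
  · have hν : ν = ν.im * Complex.I := by
      conv_lhs => rw [← Complex.re_add_im ν, ← h1]
      simp
    obtain ⟨C, hC⟩ := Pz_bdd h0 hre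
    filter_upwards [hC, diff_small hδ h ν.im (half_pos hη),
      lam_tendsto.eventually_ge_atTop (2 * (δ * C) / η)] with ε a1 a2 a3
    rw [← hν] at a2
    have a4 := (Complex.abs_re_le_norm _).trans a2
    rw [Complex.sub_re, Complex.re_ofReal_mul] at a4
    have a5 := abs_sub_abs_le_abs_sub (Ps S (1 + ε + ν)).re (δ * (Pz (1 + ε + ν)).re)
    rw [abs_mul, abs_of_nonneg hδ] at a5
    rw [div_le_iff₀ hη] at a3
    have a6 : δ * |(Pz (1 + ε + ν)).re| ≤ δ * C := mul_le_mul_of_nonneg_left a1 hδ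
    linarith
  · set C : ℝ := ∑' p : Nat.Primes, (p : ℝ) ^ (-(1 + ν.re)) with hC
    filter_upwards [self_mem_nhdsWithin, lam_tendsto.eventually_ge_atTop (C / η)] with ε hε a3
    have hε0 : (0:ℝ) < ε := hε
    have hsum : Summable fun p : Nat.Primes => (p : ℝ) ^ (-(1 + ν.re)) := summable_prime_rpow (by linarith)
    have hre : ((1:ℂ) + ε + ν).re = 1 + ε + ν.re := by simp
    have h1 : ∀ p : Nat.Primes, ‖(ind S (p : ℕ) : ℂ) * ((p : ℕ) : ℂ) ^ (-((1:ℂ) + ε + ν))‖ ≤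
        (p : ℝ) ^ (-(1 + ν.re)) := by
      intro p
      rw [norm_mul, norm_prime_cpow, hre, Complex.norm_real, Real.norm_eq_abs]
      have hp : (1:ℝ) ≤ (p : ℝ) := by exact_mod_cast p.2.one_lt.le
      refine (mul_le_of_le_one_left (by positivity) (ind_abs S p)).trans ?_
      exact Real.rpow_le_rpow_of_exponent_le hp (by linarith)
    have h2 : |(Ps S (1 + ε + ν)).re| ≤ C := by
      refine (Complex.abs_re_le_norm _).trans ?_
      unfold Ps
      exact tsum_of_norm_bounded hsum.hasSum h1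
    rw [div_le_iff₀ hη] at a3
    linarith

lemma lam_Pz {ε : ℝ} : (Pz (1 + ε)).re = lam ε := by
  unfold Pz lam
  rw [← Complex.ofReal_re (∑' p : Nat.Primes, (p : ℝ) ^ (-(1 + ε))), Complex.ofReal_tsum]
  congr 1
  refine tsum_congr fun p => ?_
  rw [Complex.ofReal_cpow (by positivity)]
  push_cast
  rfl

lemma Ps_large (hδ : 0 < δ) (h : Tendsto (fun N : ℕ => AA (ind S) N / (Nat.primeCounting N : ℝ)) atTop (𝓝 δ)) :
    ∀ᶠ ε : ℝ in 𝓝[>] 0, δ / 2 * lam ε ≤ (Ps S (1 + ε)).re := by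
  filter_upwards [diff_small hδ.le h 0 (half_pos hδ)] with ε a2
  have e1 : (1:ℂ) + ε + ((0:ℝ):ℂ) * Complex.I = 1 + ε := by simp
  rw [e1] at a2
  have a4 := (Complex.abs_re_le_norm _).trans a2
  rw [Complex.sub_re, Complex.re_ofReal_mul, lam_Pz, abs_le] at a4
  linarith [a4.1]

/-- **sets with a positive natural density are rich** -/
theorem rich_of_density (hδ : 0 < δ)
    (h : Tendsto (fun N : ℕ => AA (ind S) N / (Nat.primeCounting N : ℝ)) atTop (𝓝 δ)) : Rich S := by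
  intro F hF hfin
  classical
  have hsupp : F.coeff.support.Nonempty := Finsupp.support_nonempty_iff.2 (mt AddMonoidAlgebra.coeff_eq_zero.1 hF)
  obtain ⟨μ₀, hμ₀, hmin⟩ := Finset.exists_min_image F.coeff.support Complex.re hsupp
  have hF0 : F.coeff μ₀ ≠ 0 := Finsupp.mem_support_iff.1 hμ₀
  have hpos : 0 < |F.coeff μ₀| := abs_pos.2 hF0
  set c : Nat.Primes → ℂ := fun p => ∑ μ ∈ F.coeff.support, (F.coeff μ : ℂ) * ((p : ℕ) : ℂ) ^ (-(μ - μ₀)) with hc
  have hp0 : ∀ p : Nat.Primes, ((p : ℕ) : ℂ) ≠ 0 := fun p => by exact_mod_cast p.2.ne_zero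
  have hcz : ∀ p : Nat.Primes, p ∉ hfin.toFinset → (ind S (p : ℕ) : ℂ) * c p = 0 := by
    intro p hp
    rw [ind_coe]
    by_cases hpS : p ∈ S
    · have h1 : ev p F = 0 := by
        by_contra hcon
        exact hp (hfin.mem_toFinset.2 ⟨hpS, hcon⟩)
      have h2 : c p = ((p : ℕ) : ℂ) ^ μ₀ * ev p F := by
        rw [ev_apply, Finset.mul_sum]
        refine Finset.sum_congr rfl fun μ _ => ?_
        have e1 : -(μ - μ₀) = μ₀ + -μ := by ring
        rw [e1, Complex.cpow_add _ _ (hp0 p)]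
        ring
      rw [h2, h1, mul_zero, mul_zero]
    · rw [if_neg hpS]
      simp
  set A : ℝ := ∑ μ ∈ F.coeff.support.erase μ₀, |F.coeff μ| with hA
  have hA0 : 0 ≤ A := Finset.sum_nonneg fun _ _ => abs_nonneg _
  set η : ℝ := |F.coeff μ₀| * δ / (8 * (A + 1)) with hη
  have hη0 : 0 < η := by positivity
  have hall : ∀ᶠ ε : ℝ in 𝓝[>] 0, ∀ μ ∈ F.coeff.support.erase μ₀, |(Ps S (1 + ε + (μ - μ₀))).re| ≤ η * lam ε := by
    refine (Finset.eventually_all _).2 fun μ hμ => ?_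
    have h1 : μ - μ₀ ≠ 0 := sub_ne_zero.2 (Finset.ne_of_mem_erase hμ)
    have h2 : 0 ≤ (μ - μ₀).re := by
      rw [Complex.sub_re, sub_nonneg]
      exact hmin μ (Finset.mem_of_mem_erase hμ)
    exact Ps_small hδ.le h h1 h2 hη0
  set B : ℝ := ∑ p ∈ hfin.toFinset, ‖c p‖ with hB
  have hlarge : ∀ᶠ ε : ℝ in 𝓝[>] 0, (B + 1) / (|F.coeff μ₀| * δ / 8) < lam ε := lam_tendsto.eventually_gt_atTop _
  obtain ⟨ε, hε1, hε4, hε2, hε3⟩ := (hall.and ((Ps_large hδ h).and (hlarge.and self_mem_nhdsWithin))).exists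
  have hε0 : (0:ℝ) < ε := hε3
  -- the sum
  have hre : ∀ μ ∈ F.coeff.support, 1 < ((1:ℂ) + ε + (μ - μ₀)).re := by
    intro μ hμ
    have := hmin μ hμ
    simp only [Complex.add_re, Complex.one_re, Complex.ofReal_re, Complex.sub_re]
    linarith
  have hT1 : ∑' p : Nat.Primes, ((ind S (p : ℕ) : ℂ) * c p) * ((p : ℕ) : ℂ) ^ (-((1:ℂ) + ε)) =
      ∑ μ ∈ F.coeff.support, (F.coeff μ : ℂ) * Ps S (1 + ε + (μ - μ₀)) := by
    have h1 : ∀ p : Nat.Primes, ((ind S (p : ℕ) : ℂ) * c p) * ((p : ℕ) : ℂ) ^ (-((1:ℂ) + ε)) =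
        ∑ μ ∈ F.coeff.support, (F.coeff μ : ℂ) *
          ((ind S (p : ℕ) : ℂ) * ((p : ℕ) : ℂ) ^ (-((1:ℂ) + ε + (μ - μ₀)))) := by
      intro p
      rw [hc]
      simp only
      rw [Finset.mul_sum, Finset.sum_mul]
      refine Finset.sum_congr rfl fun μ _ => ?_
      have e1 : -((1:ℂ) + ε + (μ - μ₀)) = -(μ - μ₀) + -((1:ℂ) + ε) := by ring
      rw [e1, Complex.cpow_add _ _ (hp0 p)]
      ring
    simp only [h1]
    rw [Summable.tsum_finsetSum fun μ hμ => (summable_Ps S (hre μ hμ)).mul_left _]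
    refine Finset.sum_congr rfl fun μ _ => ?_
    rw [tsum_mul_left]
    rfl
  have hT2 : ‖∑' p : Nat.Primes, ((ind S (p : ℕ) : ℂ) * c p) * ((p : ℕ) : ℂ) ^ (-((1:ℂ) + ε))‖ ≤ B := by
    rw [tsum_eq_sum (s := hfin.toFinset) fun p hp => by rw [hcz p hp, zero_mul]]
    refine (norm_sum_le _ _).trans (Finset.sum_le_sum fun p _ => ?_)
    rw [norm_mul, norm_prime_cpow, norm_mul, Complex.norm_real, Real.norm_eq_abs]
    have hp : (1:ℝ) ≤ (p : ℝ) := by exact_mod_cast p.2.one_lt.le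
    have h1 : (p : ℝ) ^ (-((1:ℂ) + ε).re) ≤ 1 := by
      refine Real.rpow_le_one_of_one_le_of_nonpos hp ?_
      simp only [Complex.add_re, Complex.one_re, Complex.ofReal_re]
      linarith
    have h2 : |ind S (p : ℕ)| * ‖c p‖ ≤ ‖c p‖ := mul_le_of_le_one_left (norm_nonneg _) (ind_abs S p)
    exact (mul_le_of_le_one_right (by positivity) h1).trans h2
  have hT3 := (Complex.abs_re_le_norm _).trans hT2
  rw [hT1, Complex.re_sum] at hT3
  simp only [Complex.re_ofReal_mul] at hT3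
  rw [← Finset.add_sum_erase _ _ hμ₀] at hT3
  have e0 : (1:ℂ) + ε + (μ₀ - μ₀) = 1 + ε := by ring
  rw [e0] at hT3
  have hlam0 : 0 ≤ lam ε := tsum_nonneg fun p => by positivity
  have hrest : |∑ μ ∈ F.coeff.support.erase μ₀, F.coeff μ * (Ps S (1 + ε + (μ - μ₀))).re| ≤ A * (η * lam ε) := by
    rw [hA, Finset.sum_mul]
    refine (Finset.abs_sum_le_sum_abs _ _).trans (Finset.sum_le_sum fun μ hμ => ?_)
    rw [abs_mul]
    exact mul_le_mul_of_nonneg_left (hε1 μ hμ) (abs_nonneg _)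
  have h1 : |F.coeff μ₀ * (Ps S (1 + ε)).re| ≤ B + A * (η * lam ε) := by
    have h2 := abs_sub_abs_le_abs_sub (F.coeff μ₀ * (Ps S (1 + ε)).re)
      (-(∑ μ ∈ F.coeff.support.erase μ₀, F.coeff μ * (Ps S (1 + ε + (μ - μ₀))).re))
    rw [abs_neg, sub_neg_eq_add] at h2
    linarith
  have h2 : 0 ≤ (Ps S (1 + ε)).re := le_trans (by positivity) hε4
  rw [abs_mul, abs_of_nonneg h2] at h1
  have h3 : |F.coeff μ₀| * (δ / 2 * lam ε) ≤ |F.coeff μ₀| * (Ps S (1 + ε)).re := mul_le_mul_of_nonneg_left hε4 hpos.le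
  have h4 : A * (η * lam ε) ≤ |F.coeff μ₀| * δ / 8 * lam ε := by
    have h5 : A * η ≤ |F.coeff μ₀| * δ / 8 := by
      rw [hη, mul_div_assoc', div_le_iff₀ (by positivity)]
      have : 0 ≤ |F.coeff μ₀| * δ := by positivity
      nlinarith
    calc A * (η * lam ε) = (A * η) * lam ε := by ring
      _ ≤ _ := mul_le_mul_of_nonneg_right h5 hlam0
  rw [div_lt_iff₀ (by positivity)] at hε2
  have h6 : 0 ≤ |F.coeff μ₀| * δ / 8 * lam ε := by positivity
  have h7 : |F.coeff μ₀| * (δ / 2 * lam ε) = 4 * (|F.coeff μ₀| * δ / 8 * lam ε) := by ring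
  linarith

end dens

end Run7.h401.SM
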