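import Mathlib
import Pool.Agent.W353.NF.Corr
import Pool.Agent.W540.BE.Freq
import Pool.Agent.W571.FM.Frob
import Pool.Agent.Run7.h401.SM.I

/-!
The primes which split completely in several number fields form a rich set.
-/

set_option autoImplicit false

open Filter Topology NumberField IsDedekindDomain
open Pool.Agent.W401.Cheb (GK IsFrob dens ChebK)
open Pool.Agent.W353.NF (act fixn push_fix push_one vx nm_vx ker_act_open qh_one)
open Pool.Agent.W353.TP (HX push qh sum_push)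
open Pool.Agent.H921R2.TatePole (nm below deg nm_eq R R_eq_hc hc hom_finite)
open Pool.Agent.H341R2 (R_rat)
open Pool.Agent.H341R2.Abel (AA)

namespace Run7.h401.SM
open Run7.h401.SD

/-- the place of a rational prime -/
noncomputable def vq (p : Nat.Primes) : HeightOneSpectrum (𝓞 ℚ) :=
  ⟨Pool.Agent.W571.FM.pl p, Pool.Agent.W571.FM.pl_prime p.2, Pool.Agent.W571.FM.pl_ne p.2⟩

lemma vq_norm (p : Nat.Primes) : Ideal.absNorm (vq p).asIdeal = p := Pool.Agent.W571.FM.absNorm_pl p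

lemma vq_inj : Function.Injective vq := by
  intro p q h
  apply Subtype.ext
  rw [← vq_norm p, ← vq_norm q, h]

lemma vq_surj (v : HeightOneSpectrum (𝓞 ℚ)) : ∃ p : Nat.Primes, vq p = v := by
  refine ⟨below v, HeightOneSpectrum.ext ?_⟩
  have h1 : Pool.Agent.W571.FM.pl (below v : ℕ) ≤ v.asIdeal := by
    unfold Pool.Agent.W571.FM.pl
    rw [Ideal.span_singleton_le_iff_mem]
    exact (nm_eq v).2.2
  exact (Pool.Agent.W571.FM.pl_max (below v).2).eq_of_le v.isPrime.ne_top h1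

lemma dens_eq (P : HeightOneSpectrum (𝓞 ℚ) → Prop) (N : ℕ) :
    dens P N = AA (ind {p | P (vq p)}) N / (Nat.primeCounting N : ℝ) := by
  classical
  unfold dens
  congr 1
  set T : Finset ℕ := ((Finset.range (N + 1)).filter Nat.Prime).filter fun n => ∃ h : n.Prime, P (vq ⟨n, h⟩) with hT
  have h1 : AA (ind {p | P (vq p)}) N = T.card := by
    unfold AA ind
    rw [Finset.sum_boole]
    rfl
  rw [h1]
  have hTm : ∀ n : ℕ, n ∈ T ↔ (n < N + 1 ∧ n.Prime) ∧ ∃ h : n.Prime, P (vq ⟨n, h⟩) := by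
    intro n
    rw [hT, Finset.mem_filter, Finset.mem_filter, Finset.mem_range]
  have hTp : ∀ n : T, (n : ℕ).Prime := fun n => ((hTm n).1 n.2).1.2
  set g : T → {v : HeightOneSpectrum (𝓞 ℚ) // Ideal.absNorm v.asIdeal ≤ N ∧ P v} := fun n =>
    ⟨vq ⟨n, hTp n⟩, by
      obtain ⟨⟨h2, h3⟩, h4, h5⟩ := (hTm n).1 n.2
      refine ⟨?_, h5⟩
      rw [vq_norm]
      show (n : ℕ) ≤ N
      omega⟩ with hg
  have hbij : Function.Bijective g := by
    constructor
    · intro n m h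
      have h2 := congrArg Subtype.val h
      have h3 : (⟨(n : ℕ), hTp n⟩ : Nat.Primes) = ⟨(m : ℕ), hTp m⟩ := vq_inj h2
      have h4 : (n : ℕ) = m := congrArg (fun q : Nat.Primes => (q : ℕ)) h3
      exact Subtype.ext h4
    · rintro ⟨v, hv1, hv2⟩
      obtain ⟨p, rfl⟩ := vq_surj v
      rw [vq_norm] at hv1
      refine ⟨⟨(p : ℕ), ?_⟩, ?_⟩
      · exact (hTm _).2 ⟨⟨by omega, p.2⟩, p.2, hv2⟩
      · rfl
  rw [← Nat.card_congr (Equiv.ofBijective g hbij), Nat.card_eq_fintype_card, Fintype.card_coe]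

lemma rich_sdiff {S T : Set Nat.Primes} (hS : Rich S) (hT : T.Finite) : Rich (S \ T) := by
  intro F hF
  refine ((hS F hF).sdiff hT).mono fun p hp => ⟨⟨hp.1.1, hp.2⟩, hp.1.2⟩

lemma fixn_one {K F : Type} [Field K] [NumberField K] [Field F] [NumberField F] [Algebra K F] {σ : GK K}
    (h : act K F σ = 1) : fixn K F σ = Module.finrank K F := by
  unfold fixn
  rw [h]
  have h5 : Nat.card {j : F →ₐ[K] AlgebraicClosure K // (1 : Equiv.Perm (F →ₐ[K] AlgebraicClosure K)) j = j} =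
      Nat.card (F →ₐ[K] AlgebraicClosure K) :=
    Nat.card_congr (Equiv.subtypeUnivEquiv fun j => rfl)
  rw [h5, Nat.card_eq_fintype_card]
  exact AlgHom.card K F (AlgebraicClosure K)

section split
variable {ι : Type} [Finite ι] (K : ι → Type) [∀ i, Field (K i)] [∀ i, NumberField (K i)]

/-- **there is a rich set of primes which split completely** -/
theorem split_rich : ∃ S : Set Nat.Primes, Rich S ∧
    ∀ p ∈ S, ∀ i, Nat.card (𝓞 (K i) →+* ZMod (p : ℕ)) = Module.finrank ℚ (K i) := by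
  classical
  set U : Subgroup (GK ℚ) := ⨅ i, (act ℚ (K i)).ker with hU
  have hUn : U.Normal := Subgroup.normal_iInf_normal fun i => inferInstance
  have hUo : IsOpen (U : Set (GK ℚ)) := by
    rw [hU, Subgroup.coe_iInf]
    exact isOpen_iInter_of_finite fun i => ker_act_open ℚ (K i)
  have hfin : Finite (GK ℚ ⧸ U) := Subgroup.quotient_finite_of_isOpen U hUo
  have h1 := Pool.Agent.W540.BE.chebK ℚ U hUo (U : Set (GK ℚ))
    (fun σ hσ τ => Subgroup.Normal.conj_mem inferInstance σ hσ τ) (fun σ hσ u hu => U.mul_mem hσ hu)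
  have himg : ((QuotientGroup.mk : GK ℚ → GK ℚ ⧸ U) '' (U : Set (GK ℚ))) = {1} := by
    ext x
    rw [Set.mem_image, Set.mem_singleton_iff]
    constructor
    · rintro ⟨u, hu, rfl⟩
      exact (QuotientGroup.eq_one_iff u).2 hu
    · rintro rfl
      exact ⟨1, U.one_mem, rfl⟩
  rw [himg, Set.ncard_singleton] at h1
  set δ : ℝ := ((1 : ℕ) : ℝ) / (Nat.card (GK ℚ ⧸ U) : ℝ) with hδ
  have hδ0 : 0 < δ := by
    have : 0 < Nat.card (GK ℚ ⧸ U) := Nat.card_pos
    positivity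
  set S₀ : Set Nat.Primes := {p | ∃ σ ∈ (U : Set (GK ℚ)), IsFrob (vq p) σ} with hS₀
  have hrich : Rich S₀ := by
    refine rich_of_density hδ0 ?_
    refine h1.congr fun N => ?_
    exact dens_eq (fun v => ∃ σ ∈ (U : Set (GK ℚ)), IsFrob v σ) N
  choose B hB using fun i => push_fix ℚ (K i)
  have hTfin : (⋃ i, vq ⁻¹' (B i : Set (HeightOneSpectrum (𝓞 ℚ)))).Finite :=
    Set.finite_iUnion fun i => (B i).finite_toSet.preimage vq_inj.injOn
  refine ⟨S₀ \ ⋃ i, vq ⁻¹' (B i : Set (HeightOneSpectrum (𝓞 ℚ))), rich_sdiff hrich hTfin, ?_⟩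
  rintro p ⟨⟨σ, hσU, hσ⟩, hpB⟩ i
  have hpB' : vq p ∉ B i := by
    intro h
    exact hpB (Set.mem_iUnion.2 ⟨i, h⟩)
  have : Fact (p : ℕ).Prime := ⟨p.2⟩
  -- the homomorphism of the ring of integers of `ℚ`
  have hone : Nat.card (𝓞 ℚ →+* ZMod (p : ℕ)) = 1 := by
    have h2 := R_eq_hc (K := ℚ) p
    rw [R_rat] at h2
    exact h2.symm
  obtain ⟨hsub, ⟨u⟩⟩ := Nat.card_eq_one_iff_unique.1 hone
  have hvx : vx (⟨p, u⟩ : HX ℚ) = vq p := by
    obtain ⟨q, hq⟩ := vq_surj (vx (⟨p, u⟩ : HX ℚ))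
    have h2 := nm_vx (⟨p, u⟩ : HX ℚ)
    have h3 := vq_norm q
    rw [hq] at h3
    have h4 : (q : ℕ) = p := h3.symm.trans h2
    rw [← hq, Subtype.ext h4]
  have h2 := hB i ⟨p, u⟩ (by rw [hvx]; exact hpB') σ (by rw [hvx]; exact hσ)
  -- the fixed embeddings
  have hfix : fixn ℚ (K i) σ = Module.finrank ℚ (K i) := by
    have h3 : act ℚ (K i) σ = 1 := by
      have h4 : σ ∈ U := hσU
      rw [hU, Subgroup.mem_iInf] at h4
      exact h4 i
    exact fixn_one h3
  have hfin1 : Finite (𝓞 (K i) →+* ZMod (p : ℕ)) := hom_finite p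
  have hfin2 : Finite (𝓞 ℚ →+* ZMod (p : ℕ)) := hom_finite p
  let _ : Fintype (𝓞 (K i) →+* ZMod (p : ℕ)) := Fintype.ofFinite _
  have h6 := sum_push (K := ℚ) (F := K i) (qh (1 : 𝓞 (K i))) p
  rw [Fintype.sum_subsingleton _ u, h2, hfix] at h6
  simp only [qh_one] at h6
  rw [Finset.sum_const, Finset.card_univ, nsmul_eq_mul, mul_one] at h6
  rw [Nat.card_eq_fintype_card]
  have h7 := h6.symm
  have h8 : (Fintype.card (𝓞 (K i) →+* ZMod (p : ℕ)) : ℝ) = (Module.finrank ℚ (K i) : ℝ) := by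
    convert h7 using 2
  exact_mod_cast h8

end split

/-- the places above a prime which splits completely -/
lemma all_deg_one {K : Type} [Field K] [NumberField K] (p : Nat.Primes)
    (h : Nat.card (𝓞 K →+* ZMod (p : ℕ)) = Module.finrank ℚ K) :
    (Gf K (p : ℕ)).card = Module.finrank ℚ K ∧ ∀ w ∈ Gf K (p : ℕ), deg w = 1 := by
  classical
  have hR : R K p = Module.finrank ℚ K := by
    rw [R_eq_hc]
    exact h
  set G1 : Finset (HeightOneSpectrum (𝓞 K)) := (Gf K (p : ℕ)).filter fun w => deg w = 1 with hG1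
  have hc1 : G1.card = Module.finrank ℚ K := by
    rw [← hR]
    unfold R
    symm
    refine Finset.card_bij (fun v _ => v.1) ?_ ?_ ?_
    · intro v hv
      rw [Finset.mem_filter] at hv
      rw [hG1, Finset.mem_filter, mem_Gf p.2]
      exact ⟨by rw [v.2], hv.2⟩
    · intro v _ w _ hvw
      exact Subtype.ext hvw
    · intro w hw
      rw [hG1, Finset.mem_filter, mem_Gf p.2] at hw
      exact ⟨⟨w, Subtype.ext hw.1⟩, by rw [Finset.mem_filter]; exact ⟨Finset.mem_univ _, hw.2⟩, rfl⟩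
  have hsum := sum_deg_le (Gf K (p : ℕ)) (p := (p : ℕ)) fun w hw => (mem_Gf p.2).1 hw
  have hge : (Gf K (p : ℕ)).card ≤ ∑ w ∈ Gf K (p : ℕ), deg w := by
    rw [Finset.card_eq_sum_ones]
    exact Finset.sum_le_sum fun w _ => (nm_eq w).2.1
  have hsub : G1 ⊆ Gf K (p : ℕ) := Finset.filter_subset _ _
  have hle := Finset.card_le_card hsub
  have hcard : (Gf K (p : ℕ)).card = Module.finrank ℚ K := by omega
  have heq : G1 = Gf K (p : ℕ) := Finset.eq_of_subset_of_card_le hsub (by omega)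
  refine ⟨hcard, fun w hw => ?_⟩
  rw [← heq, hG1, Finset.mem_filter] at hw
  exact hw.2

end Run7.h401.SM
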