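import Mathlib
import Pool.Agent.Run7.h401.SM.J

/-!
The local factors of a rational elliptic curve over a number field at the primes which split completely.
-/

set_option autoImplicit false

open Filter Topology NumberField IsDedekindDomain Polynomial
open Pool.Agent.H921R2.TatePole (nm below deg nm_eq)
open Pool.Agent.H341R2.EC

namespace Run7.h401.SM
open Run7.h401.SD

/-- base change of an integral model -/
lemma map_model {K : Type} [Field K] [NumberField K] {E : WeierstrassCurve ℚ} {V : WeierstrassCurve (𝓞 ℚ)}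
    (h : IsModel E V) : IsModel (E.map (algebraMap ℚ K)) (V.map (algebraMap (𝓞 ℚ) (𝓞 K))) := by
  obtain ⟨C, hC⟩ := h
  refine ⟨C.map (algebraMap ℚ K), ?_⟩
  rw [WeierstrassCurve.map_variableChange, hC, WeierstrassCurve.map_map, WeierstrassCurve.map_map]
  rfl

lemma aff_map {k k' : Type} [Field k] [Field k'] (j : k →+* k') (hj : Function.Bijective j)
    (V : WeierstrassCurve k) : aff (V.map j) = aff V := by
  unfold aff
  symm
  refine Nat.card_congr (Equiv.subtypeEquiv (Equiv.prodCongr (Equiv.ofBijective j hj) (Equiv.ofBijective j hj)) ?_)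
  rintro ⟨x, y⟩
  simp only [Equiv.prodCongr_apply, Prod.map_apply, Equiv.ofBijective_apply, WeierstrassCurve.map_a₁,
    WeierstrassCurve.map_a₂, WeierstrassCurve.map_a₃, WeierstrassCurve.map_a₄, WeierstrassCurve.map_a₆]
  rw [← map_pow, ← map_mul, ← map_mul, ← map_mul, ← map_add, ← map_add, ← map_pow, ← map_pow, ← map_mul, ← map_mul,
    ← map_add, ← map_add, ← map_add]
  exact hj.1.eq_iff.symm

variable {K : Type} [Field K] [NumberField K]

lemma vq_comap (p : Nat.Primes) {w : HeightOneSpectrum (𝓞 K)} (hw : (below w : ℕ) = p) :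
    (vq p).asIdeal = w.asIdeal.comap (algebraMap (𝓞 ℚ) (𝓞 K)) := by
  have h1 : Pool.Agent.W571.FM.pl (p : ℕ) ≤ w.asIdeal.comap (algebraMap (𝓞 ℚ) (𝓞 K)) := by
    unfold Pool.Agent.W571.FM.pl
    rw [Ideal.span_singleton_le_iff_mem, Ideal.mem_comap, map_natCast, ← hw]
    exact (nm_eq w).2.2
  refine (Pool.Agent.W571.FM.pl_max p.2).eq_of_le ?_ h1
  intro h
  apply w.isPrime.ne_top
  rw [Ideal.eq_top_iff_one]
  have h2 : (1 : 𝓞 ℚ) ∈ w.asIdeal.comap (algebraMap (𝓞 ℚ) (𝓞 K)) := by rw [h]; trivial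
  rw [Ideal.mem_comap, map_one] at h2
  exact h2

/-- **the traces agree** -/
lemma trc_eq {E : WeierstrassCurve ℚ} {V₀ : HeightOneSpectrum (𝓞 ℚ) → WeierstrassCurve (𝓞 ℚ)}
    {V : HeightOneSpectrum (𝓞 K) → WeierstrassCurve (𝓞 K)} (p : Nat.Primes) {w : HeightOneSpectrum (𝓞 K)}
    (hw : (below w : ℕ) = p) (hdeg : deg w = 1) (h0 : IsModel E (V₀ (vq p)))
    (hg : (V₀ (vq p)).Δ ∉ (vq p).asIdeal) (hV : IsMinAt (E.map (algebraMap ℚ K)) w (V w)) (h3 : 3 < (p : ℕ)) :
    trc V w = trc V₀ (vq p) ∧ (V w).Δ ∉ w.asIdeal := by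
  have hcomap := vq_comap p hw
  set W : WeierstrassCurve (𝓞 K) := (V₀ (vq p)).map (algebraMap (𝓞 ℚ) (𝓞 K)) with hW
  have hWm : IsModel (E.map (algebraMap ℚ K)) W := map_model h0
  have hWΔ : W.Δ ∉ w.asIdeal := by
    rw [hW, WeierstrassCurve.map_Δ]
    intro h
    apply hg
    rw [hcomap, Ideal.mem_comap]
    exact h
  have hVΔ := minimal_good hV hWm hWΔ
  have hnm : nm w = (p : ℕ) := by
    have := (nm_eq w).1
    rw [hw, hdeg, pow_one] at this
    exact this
  have h6 : (6 : 𝓞 K) ∉ w.asIdeal := by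
    intro h
    have h1 := (nm_eq w).2.2
    rw [hw] at h1
    have hcop : Nat.Coprime (p : ℕ) 6 := by
      rw [Nat.Prime.coprime_iff_not_dvd p.2]
      intro hd
      have h2 : (p : ℕ) ∣ 2 * 3 := hd
      rcases (Nat.Prime.dvd_mul p.2).1 h2 with h4 | h4
      · have := Nat.le_of_dvd (by norm_num) h4
        omega
      · have := Nat.le_of_dvd (by norm_num) h4
        omega
    obtain ⟨a, b, hab⟩ := Nat.isCoprime_iff_coprime.2 hcop
    have h5 : ((a : 𝓞 K) * ((p : ℕ) : 𝓞 K) + (b : 𝓞 K) * 6) = 1 := by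
      have := congrArg (fun n : ℤ => (n : 𝓞 K)) hab
      push_cast at this
      exact this
    apply w.isPrime.ne_top
    rw [Ideal.eq_top_iff_one, ← h5]
    exact w.asIdeal.add_mem (w.asIdeal.mul_mem_left _ h1) (w.asIdeal.mul_mem_left _ h)
  have haff := aff_model hV.1 hWm hVΔ hWΔ h6
  -- the residue fields
  set j : (𝓞 ℚ ⧸ (vq p).asIdeal) →+* (𝓞 K ⧸ w.asIdeal) :=
    Ideal.quotientMap w.asIdeal (algebraMap (𝓞 ℚ) (𝓞 K)) hcomap.le with hj
  have hfin : Finite (𝓞 K ⧸ w.asIdeal) := Ideal.finiteQuotientOfFreeOfNeBot _ w.ne_bot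
  have hjinj : Function.Injective j := by
    rw [hj]
    refine Ideal.quotientMap_injective' ?_
    exact hcomap.ge
  have hc1 : Nat.card (𝓞 K ⧸ w.asIdeal) = p := by
    have : Ideal.absNorm w.asIdeal = Nat.card (𝓞 K ⧸ w.asIdeal) := by
      rw [Ideal.absNorm_apply, Submodule.cardQuot_apply]
    rw [← this]
    exact hnm
  have hc2 : Nat.card (𝓞 ℚ ⧸ (vq p).asIdeal) = p := by
    have : Ideal.absNorm (vq p).asIdeal = Nat.card (𝓞 ℚ ⧸ (vq p).asIdeal) := by
      rw [Ideal.absNorm_apply, Submodule.cardQuot_apply]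
    rw [← this]
    exact vq_norm p
  have hjb : Function.Bijective j := hjinj.bijective_of_nat_card_le (by rw [hc1, hc2])
  have hred : red w W = (red (vq p) (V₀ (vq p))).map j := by
    unfold red
    rw [hW, WeierstrassCurve.map_map, WeierstrassCurve.map_map]
    congr 1
  have haff2 : aff (red w W) = aff (red (vq p) (V₀ (vq p))) := by
    rw [hred]
    exact aff_map j hjb _
  refine ⟨?_, hVΔ⟩
  unfold trc
  rw [haff, haff2]
  have e1 : (nm w : ℤ) = (nm (vq p) : ℤ) := by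
    have : nm (vq p) = (p : ℕ) := vq_norm p
    rw [hnm, this]
  rw [e1]

/-- **the Euler polynomial at a prime which splits completely** -/
theorem EP_split {E : WeierstrassCurve ℚ} {V₀ : HeightOneSpectrum (𝓞 ℚ) → WeierstrassCurve (𝓞 ℚ)}
    {V : HeightOneSpectrum (𝓞 K) → WeierstrassCurve (𝓞 K)} (p : Nat.Primes)
    (hs : Nat.card (𝓞 K →+* ZMod (p : ℕ)) = Module.finrank ℚ K) (h0 : IsModel E (V₀ (vq p)))
    (hg : (V₀ (vq p)).Δ ∉ (vq p).asIdeal) (hV : ∀ w, IsMinAt (E.map (algebraMap ℚ K)) w (V w)) (h3 : 3 < (p : ℕ)) :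
    EP V (p : ℕ) = (1 - C (trc V₀ (vq p) : ℂ) * X + C ((p : ℕ) : ℂ) * X ^ 2) ^ Module.finrank ℚ K := by
  obtain ⟨h1, h2⟩ := all_deg_one p hs
  unfold EP
  rw [← h1, ← Finset.prod_const]
  refine Finset.prod_congr rfl fun w hw => ?_
  have hb := (mem_Gf p.2).1 hw
  obtain ⟨e1, e2⟩ := trc_eq p hb (h2 w hw) h0 hg (hV w) h3
  have hnm : nm w = (p : ℕ) := by
    have := (nm_eq w).1
    rw [hb, h2 w hw, pow_one] at this
    exact this
  unfold Ep dlt
  rw [h2 w hw, e1, if_neg e2, hnm, pow_one, mul_one, one_mul]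

end Run7.h401.SM
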