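import Mathlib
import Pool.Agent.Run7.h401.SM.L

/-!
A rational elliptic curve over several number fields, at different points: independence.
-/

set_option autoImplicit false

open Filter Topology NumberField IsDedekindDomain Polynomial
open Pool.Agent.H921R2.TatePole (nm below deg nm_eq)
open Pool.Agent.H341R2.EC

namespace Run7.h401.SM
open Run7.h401.SD

/-- there is an integral model over `ℚ` -/
lemma exists_int_model (E : WeierstrassCurve ℚ) [E.IsElliptic] : ∃ V : WeierstrassCurve (𝓞 ℚ), IsModel E V ∧ V.Δ ≠ 0 := by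
  obtain ⟨C, hC⟩ : ∃ C : WeierstrassCurve.VariableChange ℚ, WeierstrassCurve.IsIntegral (𝓞 ℚ) (C • E) := by
    obtain ⟨b, hb⟩ := IsLocalization.exist_integer_multiples_of_finset (nonZeroDivisors (𝓞 ℚ))
      ({E.a₁, E.a₂, E.a₃, E.a₄, E.a₆} : Finset ℚ)
    set d : ℚ := algebraMap (𝓞 ℚ) ℚ (b : 𝓞 ℚ) with hd
    have hd0 : d ≠ 0 := by
      rw [hd, Ne, map_eq_zero_iff _ (IsFractionRing.injective (𝓞 ℚ) ℚ)]
      exact nonZeroDivisors.coe_ne_zero b
    have hlift : ∀ a ∈ ({E.a₁, E.a₂, E.a₃, E.a₄, E.a₆} : Finset ℚ), ∀ k : ℕ,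
        ∃ r : 𝓞 ℚ, algebraMap (𝓞 ℚ) ℚ r = d ^ (k + 1) * a := by
      intro a ha k
      obtain ⟨r, hr⟩ := hb a ha
      refine ⟨(b : 𝓞 ℚ) ^ k * r, ?_⟩
      rw [map_mul, map_pow, hr, pow_succ, Algebra.smul_def]
      ring
    refine ⟨⟨Units.mk0 d⁻¹ (inv_ne_zero hd0), 0, 0, 0⟩, ?_⟩
    have hu : (((Units.mk0 d⁻¹ (inv_ne_zero hd0))⁻¹ : ℚˣ) : ℚ) = d := by
      rw [Units.val_inv_eq_inv_val, Units.val_mk0, inv_inv]
    refine WeierstrassCurve.isIntegral_of_exists_lift (𝓞 ℚ) ?_ ?_ ?_ ?_ ?_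
    · obtain ⟨r, hr⟩ := hlift E.a₁ (by simp) 0
      refine ⟨r, ?_⟩
      rw [hr, WeierstrassCurve.variableChange_a₁, hu]
      ring
    · obtain ⟨r, hr⟩ := hlift E.a₂ (by simp) 1
      refine ⟨r, ?_⟩
      rw [hr, WeierstrassCurve.variableChange_a₂, hu]
      ring
    · obtain ⟨r, hr⟩ := hlift E.a₃ (by simp) 2
      refine ⟨r, ?_⟩
      rw [hr, WeierstrassCurve.variableChange_a₃, hu]
      ring
    · obtain ⟨r, hr⟩ := hlift E.a₄ (by simp) 3
      refine ⟨r, ?_⟩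
      rw [hr, WeierstrassCurve.variableChange_a₄, hu]
      ring
    · obtain ⟨r, hr⟩ := hlift E.a₆ (by simp) 5
      refine ⟨r, ?_⟩
      rw [hr, WeierstrassCurve.variableChange_a₆, hu]
      ring
  obtain ⟨V, hV⟩ := hC.integral
  refine ⟨V, ⟨C, hV⟩, ?_⟩
  intro h0
  have h1 : (C • E).Δ = 0 := by
    rw [hV]
    unfold WeierstrassCurve.baseChange
    rw [WeierstrassCurve.map_Δ, h0, map_zero]
  rw [WeierstrassCurve.variableChange_Δ] at h1
  have h2 : IsUnit E.Δ := WeierstrassCurve.IsElliptic.isUnit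
  rcases mul_eq_zero.1 h1 with h3 | h3
  · exact (pow_ne_zero _ (Units.ne_zero _)) h3
  · rw [h3] at h2
    exact not_isUnit_zero h2

variable {ι : Type} [Fintype ι] {K : ι → Type} [∀ i, Field (K i)] [∀ i, NumberField (K i)]

/-- **base changes of one rational curve, different points** -/
theorem ind_base (E : WeierstrassCurve ℚ) [E.IsElliptic]
    {V : ∀ i, HeightOneSpectrum (𝓞 (K i)) → WeierstrassCurve (𝓞 (K i))}
    (hV : ∀ i w, IsMinAt (E.map (algebraMap ℚ (K i))) w (V i w)) {σ τ : ι → ℝ}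
    (hs : ∀ i j, σ i = σ j → τ i = τ j → i = j) : Ind V σ τ := by
  obtain ⟨M, hM, hMΔ⟩ := exists_int_model E
  obtain ⟨S, hS, hsplit⟩ := split_rich K
  set T : Set Nat.Primes := {p | M.Δ ∈ (vq p).asIdeal} ∪ {p | (p : ℕ) ≤ 3} with hT
  have hTfin : T.Finite := by
    refine Set.Finite.union ?_ ?_
    · exact (finite_mem hMΔ).preimage vq_inj.injOn
    · refine ((Set.finite_Iic 3).preimage (f := fun p : Nat.Primes => (p : ℕ)) ?_).subset fun p hp => hp
      exact fun a _ b _ h => Subtype.ext h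
  set P : Nat.Primes → ℂ[X] := fun p =>
    1 - C (trc (fun _ : HeightOneSpectrum (𝓞 ℚ) => M) (vq p) : ℂ) * X + C ((p : ℕ) : ℂ) * X ^ 2 with hP
  have hdeg : ∀ p, (P p).natDegree = 2 := by
    intro p
    have hp0 : ((p : ℕ) : ℂ) ≠ 0 := by exact_mod_cast p.2.ne_zero
    rw [hP]
    simp only
    compute_degree!
    exact p.2.ne_zero
  refine ind_of_common (S := S \ T) hs (fun i => Module.finrank ℚ (K i)) (fun i => Module.finrank_pos) 2
    (rich_sdiff hS hTfin) P (fun p _ => ?_) (fun p _ => ?_) (fun p _ => ?_) (fun p hp i => ?_)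
  · rw [hP]
    simp
  · rw [hdeg]
    norm_num
  · rw [hdeg]
  · have hpT := hp.2
    rw [hT, Set.mem_union, not_or] at hpT
    refine EP_split (V₀ := fun _ => M) p (hsplit p hp.1 i) hM hpT.1 (hV i) ?_
    have h3 : ¬ ((p : ℕ) ≤ 3) := hpT.2
    omega

end Run7.h401.SM
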