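import Mathlib
import Pool.Agent.Run7.h401.SD.Joint
import Pool.Agent.Run7.h401.SM.B

/-!
The joint law of several L-series on the edge.
-/

set_option autoImplicit false

open MeasureTheory Filter Topology NumberField IsDedekindDomain
open scoped ENNReal NNReal ContDiff
open Run7.h113.LE

namespace Run7.h401.SM
open Run7.h401.SD

variable {ι : Type} [Fintype ι] [DecidableEq ι]

lemma EE_norm_le (z : EE ι) : ‖z‖ ≤ ∑ i, ‖z i‖ := by
  have h1 : z = ∑ i, (WithLp.toLp 2 (Pi.single i (z i)) : EE ι) := by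
    have h2 := map_sum (Le ι) (fun i => (Pi.single i (z i) : ι → ℂ)) Finset.univ
    rw [Finset.univ_sum_single] at h2
    exact h2
  conv_lhs => rw [h1]
  refine (norm_sum_le _ _).trans (le_of_eq ?_)
  refine Finset.sum_congr rfl fun i _ => ?_
  exact PiLp.norm_single 2 (fun _ : ι => ℂ) i (z i)

omit [DecidableEq ι] in
lemma EE_coord_le (z : EE ι) (i : ι) : ‖z i‖ ≤ ‖z‖ := PiLp.norm_apply_le z i

variable {K : ι → Type} [∀ i, Field (K i)] [∀ i, NumberField (K i)]

/-- the vector of the values -/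
noncomputable def vec (g : ι → ℝ → ℂ) (τ : ι → ℝ) (t : ℝ) : EE ι := WithLp.toLp 2 fun i => g i (t + τ i)

omit [DecidableEq ι] in
lemma vec_aesm {V : ∀ i, HeightOneSpectrum (𝓞 (K i)) → WeierstrassCurve (𝓞 (K i))} {σ : ι → ℝ} (hσ : ∀ i, 0 ≤ σ i)
    (τ : ι → ℝ) {g : ι → ℝ → ℂ} (hg : ∀ i, IsLim (V i) (σ i) (g i)) : AEStronglyMeasurable (vec g τ) volume := by
  have hsh : ∀ {f : ℝ → ℂ} (τ : ℝ), AEStronglyMeasurable f volume → AEStronglyMeasurable (fun t => f (t + τ)) volume :=
    fun τ hf => hf.comp_measurePreserving (measurePreserving_add_right volume τ)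
  have h1 : AEMeasurable (fun t => fun i => g i (t + τ i)) volume :=
    aemeasurable_pi_lambda _ fun i => (hsh (τ i) ((hg i).aesm (hσ i))).aemeasurable
  exact (Le ι).continuous.comp_aestronglyMeasurable h1.aestronglyMeasurable

/-- **the joint law** -/
theorem joint_lawm (V : ∀ i, HeightOneSpectrum (𝓞 (K i)) → WeierstrassCurve (𝓞 (K i))) {σ : ι → ℝ} (hσ : ∀ i, 0 ≤ σ i)
    (τ : ι → ℝ) {g : ι → ℝ → ℂ} (hg : ∀ i, IsLim (V i) (σ i) (g i)) :
    ∃ ν : Measure (EE ι), IsProbabilityMeasure ν ∧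
      (∀ ξ, Tendsto (fun Y : ℕ => ∏ p ∈ Nat.primesBelow Y, phim V σ τ Y ξ p) atTop (𝓝 (charFun ν ξ))) ∧
      Law (vec g τ) ν := by
  set s : ℕ → ℝ → EE ι := fun Y t =>
    WithLp.toLp 2 fun i => Sx (V i) Y ((σ i : ℂ) + ((t + τ i : ℝ) : ℂ) * Complex.I) with hs
  have hcontL : Continuous fun z : ι → ℂ => (WithLp.toLp 2 z : EE ι) := (Le ι).continuous
  have hgm : AEStronglyMeasurable (vec g τ) volume := vec_aesm hσ τ hg
  have hsc : ∀ Y, Continuous (s Y) := by
    intro Y
    refine hcontL.comp (continuous_pi fun i => ?_)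
    exact (Sx_cont (V i) Y (hσ i)).comp (continuous_add_const (τ i))
  have hnorm : ∀ Y t, ‖vec g τ t - s Y t‖ ≤
      ∑ i, ‖g i (t + τ i) - Sx (V i) Y ((σ i : ℂ) + ((t + τ i : ℝ) : ℂ) * Complex.I)‖ := by
    intro Y t
    exact EE_norm_le _
  have hl : ∀ i Y a b, IntervalIntegrable
      (fun t => ‖g i (t + τ i) - Sx (V i) Y ((σ i : ℂ) + ((t + τ i : ℝ) : ℂ) * Complex.I)‖) volume a b := by
    intro i Y a b
    have h1 := loc_one (hσ i) (hg i) Y (a + τ i) (b + τ i)
    have h2 := h1.comp_add_right (τ i)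
    simpa using h2
  have hls : ∀ Y a b, IntervalIntegrable
      (fun t => ∑ i, ‖g i (t + τ i) - Sx (V i) Y ((σ i : ℂ) + ((t + τ i : ℝ) : ℂ) * Complex.I)‖) volume a b := by
    intro Y a b
    have h1 := IntervalIntegrable.sum (μ := volume) (a := a) (b := b) Finset.univ (f := fun i => fun t =>
      ‖g i (t + τ i) - Sx (V i) Y ((σ i : ℂ) + ((t + τ i : ℝ) : ℂ) * Complex.I)‖) (fun i _ => hl i Y a b)
    refine h1.congr ?_
    exact fun t _ => Finset.sum_apply _ _ _
  have hloc : ∀ Y a b, IntervalIntegrable (fun t => ‖vec g τ t - s Y t‖) volume a b := by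
    intro Y a b
    refine (hls Y a b).mono_fun ?_ (Eventually.of_forall fun t => ?_)
    · exact (hgm.sub (hsc Y).aestronglyMeasurable).norm.restrict
    · beta_reduce
      rw [norm_norm]
      refine (hnorm Y t).trans ?_
      exact Real.le_norm_self _
  have htail : ∀ ε : ℝ, 0 < ε → ∃ Y₀ : ℕ, ∀ Y : ℕ, Y₀ ≤ Y → ∀ T : ℝ,
      ∫ t in T..(T + 1), ‖vec g τ t - s Y t‖ ≤ ε := by
    intro ε hε
    have hc0 : (0:ℝ) < (Fintype.card ι : ℝ) + 1 := by positivity
    choose Y₁ h1 using fun i => tail_int (ε := ε / (Fintype.card ι + 1)) (by positivity) (V i) (hσ i) (hg i)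
    refine ⟨Finset.univ.sup Y₁, fun Y hY T => ?_⟩
    have a3 : ∀ i, ∫ t in T..(T + 1), ‖g i (t + τ i) - Sx (V i) Y ((σ i : ℂ) + ((t + τ i : ℝ) : ℂ) * Complex.I)‖ ≤
        ε / (Fintype.card ι + 1) := by
      intro i
      rw [intervalIntegral.integral_comp_add_right
        (fun t : ℝ => ‖g i t - Sx (V i) Y ((σ i:ℂ) + ((t : ℝ) : ℂ) * Complex.I)‖) (τ i)]
      have e : T + 1 + τ i = T + τ i + 1 := by ring
      rw [e]
      exact h1 i Y ((Finset.le_sup (f := Y₁) (Finset.mem_univ i)).trans hY) (T + τ i)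
    calc ∫ t in T..(T + 1), ‖vec g τ t - s Y t‖
        ≤ ∫ t in T..(T + 1), ∑ i, ‖g i (t + τ i) - Sx (V i) Y ((σ i : ℂ) + ((t + τ i : ℝ) : ℂ) * Complex.I)‖ := by
          apply intervalIntegral.integral_mono_on (by linarith) (hloc Y _ _) (hls Y _ _)
          exact fun t _ => hnorm Y t
      _ = ∑ i, ∫ t in T..(T + 1), ‖g i (t + τ i) - Sx (V i) Y ((σ i : ℂ) + ((t + τ i : ℝ) : ℂ) * Complex.I)‖ :=
          intervalIntegral.integral_finsetSum fun i _ => hl i Y _ _
      _ ≤ ∑ i : ι, ε / (Fintype.card ι + 1) := Finset.sum_le_sum fun i _ => a3 i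
      _ = Fintype.card ι * (ε / (Fintype.card ι + 1)) := by
          rw [Finset.sum_const, Finset.card_univ, nsmul_eq_mul]
      _ ≤ ε := by
          rw [mul_div_assoc', div_le_iff₀ hc0]
          nlinarith
  -- the random vectors
  have hptc : ∀ Y i, Continuous fun θ : Nat.primesBelow Y → ℝ =>
      (pt fun p => θ p + τ i * om Y p : UnitAddTorus (Nat.primesBelow Y)) := by
    intro Y i
    exact pt_cont.comp (by fun_prop)
  have hRc : ∀ Y, Continuous (RRm V σ τ Y) := by
    intro Y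
    exact hcontL.comp (continuous_pi fun i => (RY_cont (V i) (hσ i) Y).comp (hptc Y i))
  set μ : ℕ → Measure (EE ι) := fun Y => (cube (Nat.primesBelow Y)).map (RRm V σ τ Y) with hμ
  have hμp : ∀ Y, IsProbabilityMeasure (μ Y) := fun Y => Measure.isProbabilityMeasure_map (hRc Y).aemeasurable
  have hμc : ∀ Y ξ, charFun (μ Y) ξ =
      ∫ θ, Complex.exp ((inner ℝ (RRm V σ τ Y θ) ξ : ℝ) * Complex.I) ∂(cube (Nat.primesBelow Y)) := by
    intro Y ξ
    rw [charFun_apply, hμ]
    simp only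
    rw [integral_map (hRc Y).aemeasurable (Continuous.aestronglyMeasurable (by fun_prop))]
  have hmean : ∀ (Y : ℕ) (ξ : EE ι) (ε : ℝ), 0 < ε → ∃ H₀ : ℝ, 0 < H₀ ∧ ∀ H : ℝ, H₀ ≤ H → ∀ T : ℝ,
      ‖mch (s Y) ξ T H - charFun (μ Y) ξ‖ ≤ ε := by
    intro Y ξ ε hε
    set x₀ : ι → UnitAddTorus (Nat.primesBelow Y) := fun i => pt fun p => τ i * om Y p with hx₀
    have hadd : ∀ i, ∀ θ : Nat.primesBelow Y → ℝ,
        (pt fun p => θ p + τ i * om Y p : UnitAddTorus (Nat.primesBelow Y)) = pt θ + x₀ i := by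
      intro i θ
      rw [hx₀]
      funext p
      rfl
    set G : C(UnitAddTorus (Nat.primesBelow Y), ℂ) := ⟨fun x =>
      Complex.exp ((inner ℝ (WithLp.toLp 2 (fun i => RY (V i) (σ i) Y (x + x₀ i)) : EE ι) ξ : ℝ) * Complex.I), by
        have h1 : Continuous fun x : UnitAddTorus (Nat.primesBelow Y) =>
            (WithLp.toLp 2 (fun i => RY (V i) (σ i) Y (x + x₀ i)) : EE ι) :=
          hcontL.comp (continuous_pi fun i => (RY_cont (V i) (hσ i) Y).comp (continuous_add_const (x₀ i)))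
        have h2 : Continuous fun z : EE ι => Complex.exp ((inner ℝ z ξ : ℝ) * Complex.I) := by fun_prop
        exact h2.comp h1⟩ with hG
    obtain ⟨H₀, hH₀, h1⟩ := um (om_indep Y) G ε hε
    refine ⟨H₀, hH₀, fun H hH T => ?_⟩
    have h2 := h1 H hH T
    have e1 : avT (om Y) G T H = mch (s Y) ξ T H := by
      unfold avT mch
      congr 1
      apply intervalIntegral.integral_congr
      intro t _
      simp only [hG, ContinuousMap.coe_mk, hs]
      have e3 : ∀ i, (pt (fun q => t * om Y q) : UnitAddTorus (Nat.primesBelow Y)) + x₀ i =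
          pt fun p => (t + τ i) * om Y p := by
        intro i
        rw [hx₀]
        funext p
        show ((t * om Y p : ℝ) : UnitAddCircle) + ((τ i * om Y p : ℝ) : UnitAddCircle) =
          (((t + τ i) * om Y p : ℝ) : UnitAddCircle)
        rw [← AddCircle.coe_add]
        congr 1
        ring
      have e4 : ∀ i, RY (V i) (σ i) Y ((pt (fun q => t * om Y q) : UnitAddTorus (Nat.primesBelow Y)) + x₀ i) =
          Sx (V i) Y ((σ i : ℂ) + ((t + τ i : ℝ) : ℂ) * Complex.I) := by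
        intro i
        rw [e3, RY_flow]
      simp only [e4]
    have e2 : ∫ θ, G (pt θ) ∂(cube (Nat.primesBelow Y)) = charFun (μ Y) ξ := by
      rw [hμc]
      refine integral_congr_ae (Eventually.of_forall fun θ => ?_)
      simp only [hG, ContinuousMap.coe_mk]
      unfold RRm
      simp only [hadd]
    rwa [e1, e2] at h2
  obtain ⟨ν, hν, h1, h2⟩ := law_of_approx hgm (fun Y => (hsc Y).aestronglyMeasurable) hloc htail (μ := μ) hmean
  refine ⟨ν, hν, fun ξ => ?_, h2⟩
  refine (h1 ξ).congr fun Y => ?_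
  rw [hμc, char_prodm]

/-- the moments of the joint law -/
lemma joint_momm {V : ∀ i, HeightOneSpectrum (𝓞 (K i)) → WeierstrassCurve (𝓞 (K i))} {σ : ι → ℝ} (hσ : ∀ i, 0 ≤ σ i)
    {τ : ι → ℝ} {g : ι → ℝ → ℂ} (hg : ∀ i, IsLim (V i) (σ i) (g i)) {ν : Measure (EE ι)} [IsProbabilityMeasure ν]
    (hL : Law (vec g τ) ν) (n : ℕ) : Integrable (fun z => ‖z‖ ^ n) ν := by
  have hc1 : ∀ i, Continuous fun z : EE ι => z i := fun i => by fun_prop
  have hi : ∀ i, ∀ k : ℕ, Integrable (fun z : EE ι => ‖z i‖ ^ k) ν := by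
    intro i k
    obtain ⟨ν₁, hν₁, hm₁, hL₁⟩ := law_one (V i) (hσ i) (hg i)
    have hp1 : IsProbabilityMeasure (ν.map fun z => z i) := Measure.isProbabilityMeasure_map (hc1 i).aemeasurable
    have e1 : ν.map (fun z => z i) = ν₁ := by
      apply measure_eq
      intro f hf hf1
      refine law_eq (g := g i) ?_ hL₁ hf hf1
      intro f hf hf1 ε hε
      obtain ⟨H₀, hH₀, h⟩ := hL (fun z => f (z i)) (hf.comp (hc1 i)) (fun z => hf1 _) ε hε
      refine ⟨H₀, hH₀, fun H hH T => ?_⟩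
      rw [integral_map (hc1 i).aemeasurable hf.aestronglyMeasurable]
      have h3 := h H hH (T - τ i)
      unfold vec at h3
      simp only at h3
      rw [intervalIntegral.integral_comp_add_right (fun t : ℝ => f (g i t)) (τ i)] at h3
      have e3 : T - τ i + τ i = T := by ring
      have e4 : T - τ i + H + τ i = T + H := by ring
      rw [e3, e4] at h3
      exact h3
    have h1 := hm₁ k
    rw [← e1] at h1
    exact (integrable_map_measure (by fun_prop) (hc1 i).aemeasurable).1 h1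
  rcases n with _ | n
  · simpa using integrable_const (1:ℝ)
  have h2 : Integrable (fun z : EE ι => (Fintype.card ι : ℝ) ^ n * ∑ i, ‖z i‖ ^ (n + 1)) ν :=
    (integrable_finsetSum _ fun i _ => hi i (n + 1)).const_mul _
  refine h2.mono' (by fun_prop) (Eventually.of_forall fun z => ?_)
  rw [Real.norm_of_nonneg (by positivity)]
  calc ‖z‖ ^ (n + 1) ≤ (∑ i, ‖z i‖) ^ (n + 1) := pow_le_pow_left₀ (norm_nonneg _) (EE_norm_le z) _
    _ ≤ _ := by
      have h3 := pow_sum_le_card_mul_sum_pow (s := Finset.univ) (f := fun i => ‖z i‖) (fun i _ => norm_nonneg _) n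
      rwa [Finset.card_univ] at h3

end Run7.h401.SM
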