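import Mathlib
import Pool.Agent.Run7.h401.SM.C

/-!
The smooth joint density of several L-series on the edge.
-/

set_option autoImplicit false

open MeasureTheory Filter Topology NumberField IsDedekindDomain
open scoped ENNReal NNReal ContDiff ComplexConjugate
open Run7.h113.LE

namespace Run7.h401.SM
open Run7.h401.SD

variable {ι : Type} [Fintype ι] [DecidableEq ι]

omit [DecidableEq ι] in
/-- the two measures -/
lemma scale : ∃ c : ℝ≥0, c ≠ 0 ∧
    MeasurePreserving (fun z : ι → ℂ => (WithLp.toLp 2 z : EE ι)) ((c : ℝ≥0∞) • volume) volume := by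
  have hH : ((volume : Measure (ι → ℂ)).map (Le ι)).IsAddHaarMeasure := (Le ι).isAddHaarMeasure_map volume
  set c : ℝ≥0 := Measure.addHaarScalarFactor (volume : Measure (EE ι)) ((volume : Measure (ι → ℂ)).map (Le ι)) with hc
  have h1 : (volume : Measure (EE ι)) = c • ((volume : Measure (ι → ℂ)).map (Le ι)) :=
    Measure.isAddLeftInvariant_eq_smul _ _
  have h2 : 0 < c := Measure.addHaarScalarFactor_pos_of_isAddHaarMeasure _ _
  refine ⟨c, h2.ne', ⟨(Le ι).continuous.measurable, ?_⟩⟩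
  rw [Measure.map_smul]
  exact h1.symm

variable {K : ι → Type} [∀ i, Field (K i)] [∀ i, NumberField (K i)]

/-- **the smooth joint density** -/
theorem smooth_jointm (V : ∀ i, HeightOneSpectrum (𝓞 (K i)) → WeierstrassCurve (𝓞 (K i))) {σ : ι → ℝ}
    (hσ : ∀ i, 0 ≤ σ i) (τ : ι → ℝ) (hinf : ∀ u : EE ι, u ≠ 0 → {p : ℕ | p.Prime ∧ NN V σ τ p u ≠ 0}.Infinite)
    {g : ι → ℝ → ℂ} (hg : ∀ i, IsLim (V i) (σ i) (g i)) :
    ∃ f : (ι → ℂ) → ℝ, ContDiff ℝ ∞ f ∧ (∀ k n : ℕ, ∃ C : ℝ, ∀ z, ‖z‖ ^ k * ‖iteratedFDeriv ℝ n f z‖ ≤ C) ∧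
      (∀ z, 0 ≤ f z) ∧ Integrable f ∧ ∫ z, f z = 1 ∧
      ∀ B : Set (ι → ℂ), volume (frontier B) = 0 → ∀ ε : ℝ, 0 < ε → ∃ H₀ : ℝ, 0 < H₀ ∧
        ∀ H : ℝ, H₀ ≤ H → ∀ T : ℝ,
          |(volume {t ∈ Set.Icc T (T + H) | (fun i => g i (t + τ i)) ∈ B}).toReal / H - ∫ z in B, f z| ≤ ε := by
  obtain ⟨ν, hν, hchar, hL⟩ := joint_lawm V hσ τ hg
  have hdec : ∀ N : ℕ, ∃ C : ℝ, ∀ ξ : EE ι, ‖ξ‖ ^ N * ‖charFun ν ξ‖ ≤ C := by
    intro N
    obtain ⟨C, Y₀, hC, h⟩ := decay_mainm V hσ τ hinf N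
    refine ⟨max 1 C, fun ξ => ?_⟩
    rcases le_total ‖ξ‖ 1 with hξ | hξ
    · refine le_trans ?_ (le_max_left _ _)
      have h1 : ‖ξ‖ ^ N ≤ 1 := pow_le_one₀ (norm_nonneg _) hξ
      have h2 : ‖charFun ν ξ‖ ≤ 1 := norm_charFun_le_one _
      exact mul_le_one₀ h1 (norm_nonneg _) h2
    · refine le_trans ?_ (le_max_right _ _)
      have hξ0 : 0 < ‖ξ‖ := by linarith
      have h1 : ‖charFun ν ξ‖ ≤ C * ‖ξ‖ ^ (-(N : ℝ)) := by
        refine le_of_tendsto (hchar ξ).norm ?_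
        filter_upwards [eventually_ge_atTop Y₀] with Y hY
        exact h Y hY ξ hξ
      calc ‖ξ‖ ^ N * ‖charFun ν ξ‖ ≤ ‖ξ‖ ^ N * (C * ‖ξ‖ ^ (-(N : ℝ))) := by gcongr
        _ = C := by
          rw [Real.rpow_neg hξ0.le, Real.rpow_natCast]
          field_simp
  obtain ⟨f, hf1, hf2, hf3, hf4, hf5, hf6⟩ := density ν (joint_momm hσ hg hL) hdec
  obtain ⟨c, hc0, hmpt⟩ := scale (ι := ι)
  have hc0' : (c : ℝ≥0∞) ≠ 0 := by exact_mod_cast hc0
  have hct : (c : ℝ≥0∞) ≠ ⊤ := ENNReal.coe_ne_top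
  set a : ℝ := (c : ℝ) with ha
  have ha0 : 0 ≤ a := c.2
  set L : (ι → ℂ) ≃L[ℝ] EE ι := Le ι with hLL
  have hLv : ∀ z, L z = WithLp.toLp 2 z := fun z => rfl
  have hemb : MeasurableEmbedding (fun z : ι → ℂ => (WithLp.toLp 2 z : EE ι)) :=
    L.toHomeomorph.measurableEmbedding
  have hfL : ContDiff ℝ ∞ fun z => f (L z) := hf1.comp L.contDiff
  have hsm : ContDiff ℝ ∞ fun z => a • f (L z) := hfL.const_smul a
  refine ⟨fun z => a • f (L z), hsm, fun k n => ?_, fun z => ?_, ?_, ?_,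
    fun B hB ε hε => ?_⟩
  · obtain ⟨C, hC⟩ := hf2 k n
    refine ⟨a * (C * ‖(L : (ι → ℂ) →L[ℝ] EE ι)‖ ^ n), fun z => ?_⟩
    have h0 : iteratedFDeriv ℝ n (fun z => a • f (L z)) z = a • iteratedFDeriv ℝ n (fun z => f (L z)) z := by
      have h00 : ContDiff ℝ n (fun z => f (L z)) := (hf1.comp L.contDiff).of_le (by exact_mod_cast le_top)
      exact iteratedFDeriv_const_smul_apply' h00.contDiffAt
    have h1 : iteratedFDeriv ℝ n (fun z => f (L z)) z =
        (iteratedFDeriv ℝ n f (L z)).compContinuousLinearMap fun _ => (L : (ι → ℂ) →L[ℝ] EE ι) :=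
      (L : (ι → ℂ) →L[ℝ] EE ι).iteratedFDeriv_comp_right hf1 z (by exact_mod_cast le_top)
    rw [h0, h1, norm_smul, Real.norm_of_nonneg ha0]
    have h2 := (iteratedFDeriv ℝ n f (L z)).norm_compContinuousLinearMap_le
      (fun _ => (L : (ι → ℂ) →L[ℝ] EE ι))
    rw [Finset.prod_const, Finset.card_univ, Fintype.card_fin] at h2
    have h3 : ‖z‖ ≤ ‖L z‖ := (pi_norm_le_iff_of_nonneg (norm_nonneg _)).2 fun i => EE_coord_le (L z) i
    calc ‖z‖ ^ k * (a * ‖(iteratedFDeriv ℝ n f (L z)).compContinuousLinearMap fun _ => (L : (ι → ℂ) →L[ℝ] EE ι)‖)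
        ≤ ‖L z‖ ^ k * (a * (‖iteratedFDeriv ℝ n f (L z)‖ * ‖(L : (ι → ℂ) →L[ℝ] EE ι)‖ ^ n)) := by gcongr
      _ = a * ((‖L z‖ ^ k * ‖iteratedFDeriv ℝ n f (L z)‖) * ‖(L : (ι → ℂ) →L[ℝ] EE ι)‖ ^ n) := by ring
      _ ≤ a * (C * ‖(L : (ι → ℂ) →L[ℝ] EE ι)‖ ^ n) := by
        apply mul_le_mul_of_nonneg_left _ ha0
        apply mul_le_mul_of_nonneg_right (hC _) (by positivity)
  · exact smul_nonneg ha0 (hf3 _)
  · have h1 := (hmpt.integrable_comp_emb hemb).2 hf4
    have h2 := (integrable_smul_measure hc0' hct).1 h1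
    exact h2.smul a
  · have h1 := hmpt.integral_comp hemb f
    rw [integral_smul_measure] at h1
    rw [integral_smul, ← hf5]
    exact h1
  · -- the set in the other space
    set B' : Set (EE ι) := L.toHomeomorph '' B with hB'
    have hpre : (fun z : ι → ℂ => (WithLp.toLp 2 z : EE ι)) ⁻¹' B' = B := by
      rw [hB']
      exact L.toHomeomorph.injective.preimage_image B
    have hfr : frontier B' = L.toHomeomorph '' frontier B := by
      rw [hB', ← L.toHomeomorph.image_frontier]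
    have hfr0 : volume (frontier B') = 0 := by
      rw [hfr, ← hmpt.measure_preimage_emb hemb]
      have : (fun z : ι → ℂ => (WithLp.toLp 2 z : EE ι)) ⁻¹' (L.toHomeomorph '' frontier B) = frontier B :=
        L.toHomeomorph.injective.preimage_image _
      rw [this, Measure.smul_apply, hB, smul_zero]
    have hac : ν ≪ volume := by rw [hf6]; exact withDensity_absolutelyContinuous _ _
    have hBν : ν.real B' = ∫ z in B, a • f (L z) := by
      have hnm : NullMeasurableSet B' volume := by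
        have h1 : B' =ᵐ[volume] closure B' := by
          refine (eventuallyLE_antisymm_iff.2 ⟨?_, ?_⟩)
          · exact Eventually.of_forall fun z hz => subset_closure hz
          · have hsub : closure B' \ B' ⊆ frontier B' := fun z hz => ⟨hz.1, fun h => hz.2 (interior_subset h)⟩
            exact ae_le_set.2 (measure_mono_null hsub hfr0)
        exact (isClosed_closure.measurableSet.nullMeasurableSet).congr h1.symm
      rw [measureReal_def, hf6, withDensity_apply₀ _ hnm,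
        ← ofReal_integral_eq_lintegral_ofReal hf4.integrableOn (Eventually.of_forall hf3),
        ENNReal.toReal_ofReal (integral_nonneg hf3)]
      have h1 := hmpt.setIntegral_preimage_emb hemb f B'
      rw [hpre, Measure.restrict_smul, integral_smul_measure] at h1
      rw [integral_smul]
      exact h1.symm
    rw [← hBν]
    obtain ⟨H₀, hH₀, h⟩ := freq (vec_aesm hσ τ hg) hL (hac hfr0) hε
    refine ⟨H₀, hH₀, fun H hH T => ?_⟩
    have h1 := h H hH T
    have h2 : {t ∈ Set.Icc T (T + H) | vec g τ t ∈ B'} =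
        {t ∈ Set.Icc T (T + H) | (fun i => g i (t + τ i)) ∈ B} := by
      ext t
      have : (fun i => g i (t + τ i)) ∈ (fun z : ι → ℂ => (WithLp.toLp 2 z : EE ι)) ⁻¹' B' ↔
        (fun i => g i (t + τ i)) ∈ B := by rw [hpre]
      exact and_congr_right fun _ => this
    rw [h2] at h1
    exact h1

end Run7.h401.SM
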